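import Pool.Agent.W_MP_96b415_co.Defs

set_option autoImplicit false

namespace Pool.Agent.W_MP_96b415_co

open MvPolynomial ComplexConjugate

section gaplemmas
variable {ι κ : Type} [Fintype ι] [Fintype κ]

theorem gap_mono (a : ι → ℂ) {M N : ℝ} (h : M ≤ N) {z : ℂ} (hz : z ∈ gap a M) : z ∈ gap a N := by
  obtain ⟨x, hx, rfl⟩ := hz
  exact ⟨x, fun i => (hx i).trans h, rfl⟩

theorem gap_add (a : ι → ℂ) {M N : ℝ} {z w : ℂ} (hz : z ∈ gap a M) (hw : w ∈ gap a N) :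
    z + w ∈ gap a (M + N) := by
  obtain ⟨x, hx, rfl⟩ := hz
  obtain ⟨y, hy, rfl⟩ := hw
  refine ⟨fun i => x i + y i, fun i => ?_, ?_⟩
  · push_cast
    exact (abs_add_le _ _).trans (add_le_add (hx i) (hy i))
  · rw [← Finset.sum_add_distrib]
    refine Finset.sum_congr rfl fun i _ => ?_
    push_cast; ring

theorem gap_neg (a : ι → ℂ) {M : ℝ} {z : ℂ} (hz : z ∈ gap a M) : -z ∈ gap a M := by
  obtain ⟨x, hx, rfl⟩ := hz
  refine ⟨fun i => - x i, fun i => ?_, ?_⟩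
  · push_cast
    rw [abs_neg]; exact hx i
  · rw [← Finset.sum_neg_distrib]
    refine Finset.sum_congr rfl fun i _ => ?_
    push_cast; ring

theorem gap_sub (a : ι → ℂ) {M N : ℝ} {z w : ℂ} (hz : z ∈ gap a M) (hw : w ∈ gap a N) :
    z - w ∈ gap a (M + N) := by
  rw [sub_eq_add_neg]; exact gap_add a hz (gap_neg a hw)

theorem gap_mul (a : ι → ℂ) (b : κ → ℂ) {M N : ℝ} {z w : ℂ} (hz : z ∈ gap a M)
    (hw : w ∈ gap b N) : z * w ∈ gap (fun ij : ι × κ => a ij.1 * b ij.2) (M * N) := by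
  obtain ⟨x, hx, rfl⟩ := hz
  obtain ⟨y, hy, rfl⟩ := hw
  refine ⟨fun ij => x ij.1 * y ij.2, fun ij => ?_, ?_⟩
  · push_cast
    rw [abs_mul]
    exact mul_le_mul (hx _) (hy _) (abs_nonneg _) ((abs_nonneg _).trans (hx ij.1))
  · rw [Finset.sum_mul_sum, ← Finset.univ_product_univ, Finset.sum_product]
    refine Finset.sum_congr rfl fun i _ => Finset.sum_congr rfl fun j _ => ?_
    push_cast; ring

theorem gap_conj (a : ι → ℂ) {M : ℝ} {z : ℂ} (hz : z ∈ gap a M) :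
    conj z ∈ gap (fun i => conj (a i)) M := by
  obtain ⟨x, hx, rfl⟩ := hz
  refine ⟨x, hx, ?_⟩
  rw [map_sum]
  refine Finset.sum_congr rfl fun i _ => ?_
  rw [map_mul, map_intCast]

theorem gap_equiv (a : ι → ℂ) (b : κ → ℂ) (e : ι ≃ κ) (h : ∀ i, a i = b (e i)) {M : ℝ} {z : ℂ}
    (hz : z ∈ gap a M) : z ∈ gap b M := by
  obtain ⟨x, hx, rfl⟩ := hz
  refine ⟨fun j => x (e.symm j), fun j => hx _, ?_⟩
  refine Fintype.sum_equiv e _ _ fun i => ?_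
  simp [h i]

theorem gap_inl (a : ι → ℂ) (b : κ → ℂ) {M : ℝ} {z : ℂ} (hz : z ∈ gap a M) (hM : 0 ≤ M) :
    z ∈ gap (Sum.elim a b) M := by
  obtain ⟨x, hx, rfl⟩ := hz
  refine ⟨Sum.elim x (fun _ => 0), ?_, ?_⟩
  · rintro (i | i)
    · simpa using hx i
    · simpa using hM
  · simp

theorem gap_inr (a : ι → ℂ) (b : κ → ℂ) {M : ℝ} {z : ℂ} (hz : z ∈ gap b M) (hM : 0 ≤ M) :
    z ∈ gap (Sum.elim a b) M := by
  obtain ⟨x, hx, rfl⟩ := hz
  refine ⟨Sum.elim (fun _ => 0) x, ?_, ?_⟩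
  · rintro (i | i)
    · simpa using hM
    · simpa using hx i
  · simp

end gaplemmas

end Pool.Agent.W_MP_96b415_co
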