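import Pool.Agent.W_MP_96b415_co.Bezout

/-! Points on an irreducible curve that is not a line: few pairs with a given difference, hence
many distances. -/

set_option autoImplicit false

namespace Pool.Agent.W_MP_96b415_co

open MvPolynomial

/-- Translation of a plane polynomial. -/
noncomputable def shiftHom (v : ℝ × ℝ) :
    MvPolynomial (Fin 2) ℝ →ₐ[ℝ] MvPolynomial (Fin 2) ℝ :=
  aeval ![X 0 + C v.1, X 1 + C v.2]

theorem shiftHom_comp (v w : ℝ × ℝ) (h : v.1 + w.1 = 0) (h' : v.2 + w.2 = 0) :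
    (shiftHom v).comp (shiftHom w) = AlgHom.id ℝ _ := by
  apply MvPolynomial.algHom_ext
  intro i
  fin_cases i
  · simp only [shiftHom, AlgHom.comp_apply, aeval_X, map_add, AlgHom.coe_id, id]
    simp only [Fin.zero_eta, Matrix.cons_val_zero, map_add, aeval_X, algHom_C,
      algebraMap_eq]
    rw [add_assoc, ← map_add, h]
    simp
  · simp only [shiftHom, AlgHom.comp_apply, aeval_X, map_add, AlgHom.coe_id, id]
    simp only [Fin.mk_one, Matrix.cons_val_one, map_add, aeval_X, algHom_C,
      algebraMap_eq]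
    simp only [Matrix.cons_val_fin_one]
    rw [map_add, aeval_X, algHom_C, algebraMap_eq]
    simp only [Matrix.cons_val_one, Matrix.cons_val_fin_one]
    rw [add_assoc, ← map_add, h']
    simp

/-- Translation as an automorphism. -/
noncomputable def shiftEquiv (v : ℝ × ℝ) :
    MvPolynomial (Fin 2) ℝ ≃ₐ[ℝ] MvPolynomial (Fin 2) ℝ :=
  AlgEquiv.ofAlgHom (shiftHom v) (shiftHom (-v))
    (shiftHom_comp v (-v) (by simp) (by simp)) (shiftHom_comp (-v) v (by simp) (by simp))

theorem shiftEquiv_apply (v : ℝ × ℝ) (f : MvPolynomial (Fin 2) ℝ) :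
    shiftEquiv v f = shiftHom v f := rfl

theorem eval_shiftHom (v : ℝ × ℝ) (f : MvPolynomial (Fin 2) ℝ) (a b : ℝ) :
    eval ![a, b] (shiftHom v f) = eval ![a + v.1, b + v.2] f := by
  have : (aeval ![a, b]).comp (shiftHom v) =
      (aeval ![a + v.1, b + v.2] : MvPolynomial (Fin 2) ℝ →ₐ[ℝ] ℝ) := by
    apply MvPolynomial.algHom_ext
    intro i
    fin_cases i
    · simp [shiftHom]
    · simp [shiftHom]
  have h2 := DFunLike.congr_fun this f
  simpa [aeval_eq_eval] using h2

theorem totalDegree_shiftHom_le (v : ℝ × ℝ) (f : MvPolynomial (Fin 2) ℝ) :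
    (shiftHom v f).totalDegree ≤ f.totalDegree := by
  rw [shiftHom, aeval_def, eval₂_eq']
  refine totalDegree_finsetSum_le ?_
  intro m hm
  refine le_trans (totalDegree_mul _ _) ?_
  rw [algebraMap_eq, totalDegree_C, zero_add]
  refine le_trans (totalDegree_finsetProd _ _) ?_
  have h1 : ∀ i : Fin 2, totalDegree ((![X 0 + C v.1, X 1 + C v.2] : Fin 2 →
      MvPolynomial (Fin 2) ℝ) i ^ m i) ≤ m i := by
    intro i
    refine le_trans (totalDegree_pow _ _) ?_
    have : totalDegree ((![X 0 + C v.1, X 1 + C v.2] : Fin 2 →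
      MvPolynomial (Fin 2) ℝ) i) ≤ 1 := by
      fin_cases i
      · refine le_trans (totalDegree_add _ _) ?_
        simp
      · refine le_trans (totalDegree_add _ _) ?_
        simp
    calc m i * _ ≤ m i * 1 := Nat.mul_le_mul_left _ this
      _ = m i := mul_one _
  refine le_trans (Finset.sum_le_sum fun i _ => h1 i) ?_
  have h2 := le_totalDegree hm
  rwa [Finsupp.sum_fintype _ _ (fun _ => rfl)] at h2

theorem irreducible_line (a b c d : ℝ) (h : a ≠ 0 ∨ b ≠ 0) :
    Irreducible (C a * (X 0 - C c) + C b * (X 1 - C d) : MvPolynomial (Fin 2) ℝ) ∧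
    (C a * (X 0 - C c) + C b * (X 1 - C d) : MvPolynomial (Fin 2) ℝ).totalDegree ≤ 1 := by
  set l : MvPolynomial (Fin 2) ℝ := C a * (X 0 - C c) + C b * (X 1 - C d) with hl
  have hle : l.totalDegree ≤ 1 := by
    refine le_trans (totalDegree_add _ _) (max_le ?_ ?_)
    · refine le_trans (totalDegree_mul _ _) ?_
      rw [totalDegree_C, zero_add, sub_eq_add_neg, ← map_neg]
      refine le_trans (totalDegree_add _ _) ?_
      simp
    · refine le_trans (totalDegree_mul _ _) ?_
      rw [totalDegree_C, zero_add, sub_eq_add_neg, ← map_neg]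
      refine le_trans (totalDegree_add _ _) ?_
      simp
  have hev : ∀ x y : ℝ, eval ![x, y] l = a * (x - c) + b * (y - d) := by
    intro x y
    simp [hl]
  have h1 : l.totalDegree = 1 := by
    by_contra hne
    have h0 : l.totalDegree = 0 := by omega
    rw [totalDegree_eq_zero_iff_eq_C] at h0
    have e1 := hev c d
    have e2 := hev (c + a) (d + b)
    rw [h0, eval_C] at e1 e2
    have : a * a + b * b = 0 := by linarith
    rcases h with h | h
    · have := mul_self_pos.2 h
      nlinarith [mul_self_nonneg b]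
    · have := mul_self_pos.2 h
      nlinarith [mul_self_nonneg a]
  refine ⟨?_, hle⟩
  refine irreducible_of_totalDegree_eq_one h1 ?_
  intro x hx
  rw [isUnit_iff_ne_zero]
  rintro rfl
  have : l = 0 := by
    ext i
    have := hx i
    rw [zero_dvd_iff] at this
    rw [this, coeff_zero]
  rw [this] at h1
  simp at h1

/-- For an irreducible `f` whose zero set is not contained in a line, each nonzero vector is the
difference of a bounded number of pairs of zeros of `f`. -/
theorem curve_diff (k : ℕ) : ∃ B : ℕ, ∀ f : MvPolynomial (Fin 2) ℝ, Irreducible f →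
    f.totalDegree ≤ k →
    (∃ α β γ : ℝ, (α ≠ 0 ∨ β ≠ 0) ∧ ∀ x y : ℝ, eval ![x, y] f = 0 → α * x + β * y + γ = 0) ∨
    (∀ v : ℝ × ℝ, v ≠ 0 → ∀ S : Finset (ℝ × ℝ),
      (∀ p ∈ S, eval ![p.1, p.2] f = 0 ∧ eval ![p.1 + v.1, p.2 + v.2] f = 0) → S.card ≤ B) := by
  obtain ⟨B, hB⟩ := bezout_bound (max k 1)
  refine ⟨B, fun f hf hfk => ?_⟩
  by_cases H : ∃ v : ℝ × ℝ, v ≠ 0 ∧ Associated f (shiftHom v f) ∧
      ∃ z : ℝ × ℝ, eval ![z.1, z.2] f = 0
  · left
    obtain ⟨v, hv, has, z, hz⟩ := H
    have hinv : ∀ a b : ℝ, eval ![a, b] f = 0 → eval ![a + v.1, b + v.2] f = 0 := by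
      intro a b hab
      rw [← eval_shiftHom]
      obtain ⟨u, hu⟩ := has
      rw [← hu, map_mul, hab, zero_mul]
    have hall : ∀ n : ℕ, eval ![z.1 + n * v.1, z.2 + n * v.2] f = 0 := by
      intro n
      induction n with
      | zero => simpa using hz
      | succ n ih =>
        have := hinv _ _ ih
        have e1 : z.1 + n * v.1 + v.1 = z.1 + ((n + 1 : ℕ) : ℝ) * v.1 := by push_cast; ring
        have e2 : z.2 + n * v.2 + v.2 = z.2 + ((n + 1 : ℕ) : ℝ) * v.2 := by push_cast; ring
        rwa [e1, e2] at this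
    have hvne : v.2 ≠ 0 ∨ -v.1 ≠ 0 := by
      by_contra hcon
      push Not at hcon
      apply hv
      ext
      · simpa using hcon.2
      · simpa using hcon.1
    obtain ⟨hlirr, hldeg⟩ := irreducible_line v.2 (-v.1) z.1 z.2 hvne
    set l : MvPolynomial (Fin 2) ℝ := C v.2 * (X 0 - C z.1) + C (-v.1) * (X 1 - C z.2) with hl
    have hev : ∀ x y : ℝ, eval ![x, y] l = v.2 * (x - z.1) + (-v.1) * (y - z.2) := by
      intro x y
      simp [hl]
    have hassoc : Associated f l := by
      by_contra hna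
      have hcard := hB f l hf hlirr hna (le_trans hfk (le_max_left _ _))
        (le_trans hldeg (le_max_right _ _))
        ((Finset.range (B + 1)).image fun n : ℕ => (z.1 + n * v.1, z.2 + n * v.2)) ?_
      · rw [Finset.card_image_of_injective, Finset.card_range] at hcard
        · omega
        · intro m n hmn
          simp only [Prod.mk.injEq, add_right_inj] at hmn
          rcases hvne with h | h
          · exact_mod_cast mul_right_cancel₀ h hmn.2
          · have h' : v.1 ≠ 0 := by simpa using h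
            exact_mod_cast mul_right_cancel₀ h' hmn.1
      · intro p hp
        rw [Finset.mem_image] at hp
        obtain ⟨n, -, rfl⟩ := hp
        refine ⟨hall n, ?_⟩
        rw [hev]
        ring
    refine ⟨v.2, -v.1, -(v.2 * z.1 + (-v.1) * z.2), hvne, fun x y hxy => ?_⟩
    obtain ⟨u, hu⟩ := hassoc
    have h0 : eval ![x, y] l = 0 := by
      rw [← hu, map_mul, hxy, zero_mul]
    rw [hev] at h0
    linarith
  · right
    intro v hv S hS
    by_cases has : Associated f (shiftHom v f)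
    · have hemp : S = ∅ := by
        rw [Finset.eq_empty_iff_forall_notMem]
        intro p hp
        exact H ⟨v, hv, has, p, (hS p hp).1⟩
      rw [hemp]
      simp
    · refine hB f (shiftHom v f) hf ?_ has (le_trans hfk (le_max_left _ _))
        (le_trans (le_trans (totalDegree_shiftHom_le v f) hfk) (le_max_left _ _)) S ?_
      · rw [← shiftEquiv_apply]
        exact (MulEquiv.irreducible_iff (shiftEquiv v)).2 hf
      · intro p hp
        refine ⟨(hS p hp).1, ?_⟩
        rw [eval_shiftHom]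
        exact (hS p hp).2

/-- Counting: if every nonzero difference of `X` occurs at most `B` times and every squared length
is attained by at most `T` differences, then `X` spans at least `|X| (|X|-1) / (B T)` distances. -/
theorem many_distances (X : Finset (ℝ × ℝ)) (B T : ℕ)
    (hB : ∀ v : ℝ × ℝ, v ≠ 0 → ∀ S : Finset (ℝ × ℝ), (∀ p ∈ S, p ∈ X ∧ p + v ∈ X) → S.card ≤ B)
    (hT : ∀ t : ℝ, t ≠ 0 → ∀ S : Finset (ℝ × ℝ),
      (∀ v ∈ S, v.1 ^ 2 + v.2 ^ 2 = t ∧ ∃ p ∈ X, p + v ∈ X) → S.card ≤ T) :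
    X.card * (X.card - 1) ≤
      (X.offDiag.image (fun pq : (ℝ × ℝ) × (ℝ × ℝ) =>
        (pq.1.1 - pq.2.1) ^ 2 + (pq.1.2 - pq.2.2) ^ 2)).card * (B * T) := by
  classical
  have hoff : X.card * (X.card - 1) = X.offDiag.card := by
    rw [Finset.offDiag_card, Nat.mul_sub, mul_one]
  rw [hoff, mul_comm]
  refine Finset.card_le_mul_card_image _ _ ?_
  intro t ht
  rw [Finset.mem_image] at ht
  obtain ⟨pq, hpq, rfl⟩ := ht
  rw [Finset.mem_offDiag] at hpq
  set t : ℝ := (pq.1.1 - pq.2.1) ^ 2 + (pq.1.2 - pq.2.2) ^ 2 with ht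
  have ht0 : t ≠ 0 := by
    intro h0
    apply hpq.2.2
    have h1 : pq.1.1 - pq.2.1 = 0 := by
      have : (pq.1.1 - pq.2.1) ^ 2 = 0 :=
        le_antisymm (by nlinarith [sq_nonneg (pq.1.2 - pq.2.2)]) (sq_nonneg _)
      exact pow_eq_zero_iff (two_ne_zero) |>.1 this
    have h2 : pq.1.2 - pq.2.2 = 0 := by
      have : (pq.1.2 - pq.2.2) ^ 2 = 0 :=
        le_antisymm (by nlinarith [sq_nonneg (pq.1.1 - pq.2.1)]) (sq_nonneg _)
      exact pow_eq_zero_iff (two_ne_zero) |>.1 this
    ext
    · linarith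
    · linarith
  set F := X.offDiag.filter (fun x : (ℝ × ℝ) × (ℝ × ℝ) =>
    (x.1.1 - x.2.1) ^ 2 + (x.1.2 - x.2.2) ^ 2 = t) with hF
  have himg : (F.image fun x : (ℝ × ℝ) × (ℝ × ℝ) => x.1 - x.2).card ≤ T := by
    refine hT t ht0 _ ?_
    intro v hv
    rw [Finset.mem_image] at hv
    obtain ⟨x, hx, rfl⟩ := hv
    rw [hF, Finset.mem_filter, Finset.mem_offDiag] at hx
    refine ⟨hx.2, x.2, hx.1.2.1, ?_⟩
    simpa using hx.1.1
  have hfib : F.card ≤ B * (F.image fun x : (ℝ × ℝ) × (ℝ × ℝ) => x.1 - x.2).card := by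
    refine Finset.card_le_mul_card_image _ _ ?_
    intro v hv
    rw [Finset.mem_image] at hv
    obtain ⟨x, hx, rfl⟩ := hv
    rw [hF, Finset.mem_filter, Finset.mem_offDiag] at hx
    have hne : x.1 - x.2 ≠ 0 := sub_ne_zero.2 hx.1.2.2
    have hinj : (F.filter fun y : (ℝ × ℝ) × (ℝ × ℝ) => y.1 - y.2 = x.1 - x.2).card =
        ((F.filter fun y : (ℝ × ℝ) × (ℝ × ℝ) => y.1 - y.2 = x.1 - x.2).image Prod.snd).card := by
      rw [Finset.card_image_of_injOn]
      intro y hy z hz hyz
      rw [Finset.mem_coe, Finset.mem_filter] at hy hz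
      have h1 : y.1 - y.2 = z.1 - z.2 := hy.2.trans hz.2.symm
      have h2 : y.2 = z.2 := hyz
      rw [h2] at h1
      exact Prod.ext (sub_left_inj.1 h1) h2
    rw [hinj]
    refine hB _ hne _ ?_
    intro p hp
    rw [Finset.mem_image] at hp
    obtain ⟨y, hy, rfl⟩ := hp
    rw [Finset.mem_filter, hF, Finset.mem_filter, Finset.mem_offDiag] at hy
    refine ⟨hy.1.1.2.1, ?_⟩
    rw [← hy.2]
    simpa using hy.1.1.1
  calc F.card ≤ B * (F.image fun x : (ℝ × ℝ) × (ℝ × ℝ) => x.1 - x.2).card := hfib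
    _ ≤ B * T := Nat.mul_le_mul_left _ himg

end Pool.Agent.W_MP_96b415_co
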