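import Pool.Agent.W_MP_96b415_co.Chang
import Pool.Agent.W_MP_96b415_co.Line
import Pool.Agent.W_MP_96b415_co.Curve
import Pool.Agent.W_MP_96b415_co.GapLemmas

set_option autoImplicit false

namespace Pool.Agent.W_MP_96b415_co

open MvPolynomial ComplexConjugate

/-- `P` is contained in a generalized arithmetic progression of rank `r` with all coefficients
bounded by `H`. -/
def InGap (r : ℕ) (H : ℝ) (P : Finset (ℝ × ℝ)) : Prop :=
  ∃ (o : ℝ × ℝ) (a : Fin r → ℝ × ℝ), ∀ p ∈ P, ∃ x : Fin r → ℤ,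
    (∀ i, |((x i : ℤ) : ℝ)| ≤ H) ∧ p = o + ∑ i, ((x i : ℤ) : ℝ) • a i

/-- The number of distinct distances. -/
noncomputable def numDist (P : Finset (ℝ × ℝ)) : ℕ :=
  (P.offDiag.image (fun pq : (ℝ × ℝ) × (ℝ × ℝ) =>
    (pq.1.1 - pq.2.1) ^ 2 + (pq.1.2 - pq.2.2) ^ 2)).card

/-- the complex number of a point -/
def toC (p : ℝ × ℝ) : ℂ := ⟨p.1, p.2⟩

theorem toC_injective : Function.Injective toC := by
  rintro ⟨a, b⟩ ⟨c, d⟩ h
  simpa [toC, Complex.ext_iff] using h

theorem toC_add (p q : ℝ × ℝ) : toC (p + q) = toC p + toC q := by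
  apply Complex.ext <;> simp [toC]

theorem toC_sub (p q : ℝ × ℝ) : toC (p - q) = toC p - toC q := by
  apply Complex.ext <;> simp [toC]

theorem toC_smul (x : ℝ) (p : ℝ × ℝ) : toC (x • p) = (x : ℂ) * toC p := by
  apply Complex.ext <;> simp [toC]

theorem toC_sum {ι : Type} (s : Finset ι) (f : ι → ℝ × ℝ) :
    toC (∑ i ∈ s, f i) = ∑ i ∈ s, toC (f i) := by
  classical
  induction s using Finset.induction_on with
  | empty => apply Complex.ext <;> simp [toC]
  | insert a s ha ih => rw [Finset.sum_insert ha, Finset.sum_insert ha, toC_add, ih]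

theorem normSq_toC (p : ℝ × ℝ) : Complex.normSq (toC p) = p.1 ^ 2 + p.2 ^ 2 := by
  rw [Complex.normSq_apply]; simp only [toC]; ring

theorem inGap_diff {r : ℕ} {H : ℝ} {P : Finset (ℝ × ℝ)} {o : ℝ × ℝ} {a : Fin r → ℝ × ℝ}
    (h : ∀ p ∈ P, ∃ x : Fin r → ℤ,
      (∀ i, |((x i : ℤ) : ℝ)| ≤ H) ∧ p = o + ∑ i, ((x i : ℤ) : ℝ) • a i)
    {p q : ℝ × ℝ} (hp : p ∈ P) (hq : q ∈ P) :
    toC p - toC q ∈ gap (fun i => toC (a i)) (2 * H) := by
  obtain ⟨x, hx, hpx⟩ := h p hp
  obtain ⟨y, hy, hqy⟩ := h q hq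
  have e1 : toC p - toC q = ∑ i, ((x i : ℤ) : ℂ) * toC (a i) - ∑ i, ((y i : ℤ) : ℂ) * toC (a i) := by
    have h1 : toC p = toC o + ∑ i, ((x i : ℤ) : ℂ) * toC (a i) := by
      rw [hpx, toC_add, toC_sum]
      congr 1
      refine Finset.sum_congr rfl fun i _ => ?_
      rw [toC_smul]; push_cast; rfl
    have h2 : toC q = toC o + ∑ i, ((y i : ℤ) : ℂ) * toC (a i) := by
      rw [hqy, toC_add, toC_sum]
      congr 1
      refine Finset.sum_congr rfl fun i _ => ?_
      rw [toC_smul]; push_cast; rfl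
    rw [h1, h2]; ring
  rw [e1, two_mul]
  exact gap_sub _ ⟨x, hx, rfl⟩ ⟨y, hy, rfl⟩

theorem InGap.mono {r : ℕ} {H H' : ℝ} {P : Finset (ℝ × ℝ)} (hH : H ≤ H') (h : InGap r H P) :
    InGap r H' P := by
  obtain ⟨o, a, h⟩ := h
  refine ⟨o, a, fun p hp => ?_⟩
  obtain ⟨x, hx, e⟩ := h p hp
  exact ⟨x, fun i => (hx i).trans hH, e⟩

/-- the image of `P × X` under the squared distance is contained in the set of distances plus 0 -/
theorem card_dist_le (P X : Finset (ℝ × ℝ)) (hX : X ⊆ P) :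
    (((P.image toC) ×ˢ (X.image toC)).image
      (fun q : ℂ × ℂ => Complex.normSq (q.1 - q.2))).card ≤ numDist P + 1 := by
  classical
  unfold numDist
  refine (Finset.card_le_card (t := insert 0 (P.offDiag.image (fun pq : (ℝ × ℝ) × (ℝ × ℝ) =>
    (pq.1.1 - pq.2.1) ^ 2 + (pq.1.2 - pq.2.2) ^ 2))) ?_).trans (Finset.card_insert_le _ _)
  intro t ht
  obtain ⟨q, hq, rfl⟩ := Finset.mem_image.1 ht
  obtain ⟨h1, h2⟩ := Finset.mem_product.1 hq
  obtain ⟨p, hp, hp'⟩ := Finset.mem_image.1 h1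
  obtain ⟨x, hx, hx'⟩ := Finset.mem_image.1 h2
  rw [← hp', ← hx']
  rw [← toC_sub, normSq_toC]
  by_cases hpx : p = x
  · subst hpx; simp
  · refine Finset.mem_insert_of_mem (Finset.mem_image.2 ⟨(p, x), ?_, ?_⟩)
    · simp [Finset.mem_offDiag, hp, hX hx, hpx]
    · simp

/-- Lines, general form. -/
theorem line_bound (r : ℕ) (A ε : ℝ) (hε : 0 < ε) : ∃ K : ℝ, 0 < K ∧ ∀ P : Finset (ℝ × ℝ),
    2 ≤ P.card → InGap r ((P.card : ℝ) ^ A) P → (numDist P : ℝ) ≤ P.card / 6 →
    ∀ α β γ : ℝ, (α ≠ 0 ∨ β ≠ 0) →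
      ((P.filter (fun x : ℝ × ℝ => α * x.1 + β * x.2 + γ = 0)).card : ℝ)
        ≤ K * (P.card : ℝ) ^ ((1 : ℝ) / 2 + ε) := by
  classical
  set A' : ℝ := max A 0 with hA'
  have hA'0 : 0 ≤ A' := le_max_right _ _
  set ε' : ℝ := ε / (A' + 1) with hε'
  have hε'0 : 0 < ε' := div_pos hε (by linarith)
  have hAe : A' * ε' ≤ ε := by
    rw [hε', mul_div_assoc']
    rw [div_le_iff₀ (by linarith)]
    nlinarith
  obtain ⟨C, hC, hdiv⟩ := gap_div_bound (Fin r × Fin r) ε' hε'0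
  set K0 : ℝ := C * 32 ^ ε' with hK0
  have hK0pos : 0 < K0 := by positivity
  refine ⟨31 + Real.sqrt K0, by positivity, ?_⟩
  intro P hP hgap hD α β γ hαβ
  set n : ℝ := (P.card : ℝ) with hn
  have hn2 : (2 : ℝ) ≤ n := by rw [hn]; exact_mod_cast hP
  have hn1 : (1 : ℝ) ≤ n := by linarith
  have hnpow : (1 : ℝ) ≤ n ^ ((1 : ℝ) / 2 + ε) := Real.one_le_rpow hn1 (by linarith)
  set X := P.filter (fun x : ℝ × ℝ => α * x.1 + β * x.2 + γ = 0) with hX
  have hXP : X ⊆ P := Finset.filter_subset _ _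
  have hbase : 31 * (1 : ℝ) ≤ (31 + Real.sqrt K0) * n ^ ((1 : ℝ) / 2 + ε) :=
    mul_le_mul (by linarith [Real.sqrt_nonneg K0]) hnpow (by norm_num)
      (by linarith [Real.sqrt_nonneg K0])
  rcases Nat.lt_or_ge 1 X.card with hXc | hXc
  swap
  · have : (X.card : ℝ) ≤ 1 := by exact_mod_cast hXc
    linarith
  obtain ⟨q0, hq0, q1, hq1, hne⟩ := Finset.one_lt_card.1 hXc
  have hq0P := hXP hq0
  have hq1P := hXP hq1
  -- the gap
  obtain ⟨o, a, hoa⟩ := InGap.mono (H' := n ^ A')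
    (Real.rpow_le_rpow_of_exponent_le hn1 (le_max_left _ _)) hgap
  set H : ℝ := n ^ A' with hH
  have hH1 : 1 ≤ H := Real.one_le_rpow hn1 hA'0
  set a' : Fin r → ℂ := fun i => toC (a i) with ha'
  set g : Fin r × Fin r → ℂ := fun ij => a' ij.1 * conj (a' ij.2) with hg
  set w : ℂ := toC q1 - toC q0 with hw
  have hw0 : w ≠ 0 := by
    rw [hw, sub_ne_zero]
    exact fun h => hne (toC_injective h).symm
  have hwgap : conj w ∈ gap (fun i => conj (a' i)) (2 * H) :=
    gap_conj _ (inGap_diff hoa hq1P hq0P)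
  have hstar : ∀ p ∈ P, (toC p - toC q0) * conj w ∈ gap g (4 * H ^ 2) := by
    intro p hp
    have := gap_mul a' (fun i => conj (a' i)) (inGap_diff hoa hp hq0P) hwgap
    refine gap_mono _ (le_of_eq ?_) this
    ring
  have hstar' : ∀ p ∈ P, conj ((toC p - toC q0) * conj w) ∈ gap g (4 * H ^ 2) := by
    intro p hp
    have h1 := gap_conj _ (hstar p hp)
    refine gap_equiv _ g (Equiv.prodComm _ _) ?_ h1
    rintro ⟨i, j⟩
    simp only [hg, Equiv.prodComm_apply, Prod.swap_prod_mk, map_mul, Complex.conj_conj]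
    ring
  have hu : ∀ p ∈ P, ∀ x ∈ P, (toC p - toC q0) * conj w + conj ((toC p - toC q0) * conj w)
      - 2 * ((toC x - toC q0) * conj w) ∈ gap g (16 * H ^ 2) := by
    intro p hp x hx
    have h1 := gap_add g (hstar p hp) (hstar' p hp)
    have h2 := gap_add g (hstar x hx) (hstar x hx)
    have h3 := gap_sub g h1 h2
    rw [← two_mul ((toC x - toC q0) * conj w)] at h3
    refine gap_mono _ (le_of_eq ?_) h3
    ring
  -- divisor bound
  set T : ℕ := ⌊C * (32 * H ^ 2) ^ ε'⌋₊ with hT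
  have h32 : (1 : ℝ) ≤ 32 * H ^ 2 := by nlinarith
  have hTle : (T : ℝ) ≤ C * (32 * H ^ 2) ^ ε' := Nat.floor_le (by positivity)
  have hmain := line_energy (P.image toC) (X.image toC) (toC q0) w hw0 (by
    intro x hx
    obtain ⟨x, hxX, rfl⟩ := Finset.mem_image.1 hx
    have e1 : α * x.1 + β * x.2 + γ = 0 := (Finset.mem_filter.1 hxX).2
    have e2 : α * q0.1 + β * q0.2 + γ = 0 := (Finset.mem_filter.1 hq0).2
    have e3 : α * q1.1 + β * q1.2 + γ = 0 := (Finset.mem_filter.1 hq1).2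
    rw [Complex.conj_eq_iff_im]
    simp only [hw, toC, map_sub, Complex.mul_im, Complex.sub_re, Complex.sub_im,
      Complex.conj_re, Complex.conj_im]
    rcases hαβ with h | h
    · apply mul_left_cancel₀ h
      linear_combination (q1.2 - q0.2) * (e2 - e1) + (x.2 - q0.2) * (e3 - e2)
    · apply mul_left_cancel₀ h
      linear_combination (q1.1 - q0.1) * (e1 - e2) + (x.1 - q0.1) * (e2 - e3)) T (by
    intro c hc S hS
    have hinj : Set.InjOn (fun u : ℂ × ℂ => u.1 - u.2) (S : Set (ℂ × ℂ)) := by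
      intro u hu v hv huv
      obtain ⟨_, _, hu3⟩ := hS u hu
      obtain ⟨_, _, hv3⟩ := hS v hv
      simp only at huv
      have hd : u.1 - u.2 ≠ 0 := by
        intro h; rw [h, zero_mul] at hu3; exact hc hu3.symm
      rw [← huv, ← hu3] at hv3
      have hs := mul_left_cancel₀ hd hv3
      apply Prod.ext
      · linear_combination (1/2 : ℂ) * huv - (1/2 : ℂ) * hs
      · linear_combination (-1/2 : ℂ) * huv - (1/2 : ℂ) * hs
    rw [← Finset.card_image_of_injOn hinj]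
    apply Nat.le_floor
    refine hdiv _ h32 g c hc _ ?_
    intro d hd
    obtain ⟨u, hu', rfl⟩ := Finset.mem_image.1 hd
    obtain ⟨⟨p, hp, x, hx, h1⟩, ⟨p', hp', x', hx', h2⟩, h3⟩ := hS u hu'
    obtain ⟨pp, hpp, rfl⟩ := Finset.mem_image.1 hp
    obtain ⟨xx, hxx, rfl⟩ := Finset.mem_image.1 hx
    obtain ⟨pp', hpp', rfl⟩ := Finset.mem_image.1 hp'
    obtain ⟨xx', hxx', rfl⟩ := Finset.mem_image.1 hx'
    have m1 : u.1 ∈ gap g (16 * H ^ 2) := by rw [h1]; exact hu pp hpp xx (hXP hxx)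
    have m2 : u.2 ∈ gap g (16 * H ^ 2) := by rw [h2]; exact hu pp' hpp' xx' (hXP hxx')
    refine ⟨gap_mono _ (le_of_eq (by ring)) (gap_sub g m1 m2), u.1 + u.2,
      gap_mono _ (le_of_eq (by ring)) (gap_add g m1 m2), h3⟩)
  rw [Finset.card_image_of_injective _ toC_injective,
    Finset.card_image_of_injective _ toC_injective] at hmain
  have hmain2 : (P.card * X.card) ^ 2 ≤ (numDist P + 1) *
      (4 * P.card * X.card ^ 2 + T * P.card ^ 2) :=
    hmain.trans (Nat.mul_le_mul_right _ (card_dist_le P X hXP))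
  have hmain3 : (n * (X.card : ℝ)) ^ 2 ≤ ((numDist P : ℝ) + 1) *
      (4 * n * (X.card : ℝ) ^ 2 + T * n ^ 2) := by
    rw [hn]; exact_mod_cast hmain2
  set M : ℝ := (X.card : ℝ) with hM
  have hM1 : (1 : ℝ) < M := by rw [hM]; exact_mod_cast hXc
  rcases le_or_gt (M ^ 2) ((T : ℝ) * n) with hcase | hcase
  · -- M ≤ sqrt (T n)
    have h1 : M ^ 2 ≤ K0 * (n ^ ((1 : ℝ) / 2 + ε)) ^ 2 := by
      calc M ^ 2 ≤ (T : ℝ) * n := hcase
        _ ≤ C * (32 * H ^ 2) ^ ε' * n := by gcongr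
        _ = K0 * ((H ^ 2) ^ ε' * n) := by
            rw [Real.mul_rpow (by norm_num) (by positivity), hK0]; ring
        _ ≤ K0 * (n ^ ((1 : ℝ) / 2 + ε)) ^ 2 := by
            have e1 : (H ^ 2) ^ ε' * n = n ^ (2 * (A' * ε') + 1) := by
              rw [hH, ← Real.rpow_natCast (n ^ A') 2, ← Real.rpow_mul (by linarith),
                ← Real.rpow_mul (by linarith), Real.rpow_add (by linarith), Real.rpow_one]
              congr 2
              push_cast; ring
            have e2 : (n ^ ((1 : ℝ) / 2 + ε)) ^ 2 = n ^ (2 * ε + 1) := by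
              rw [← Real.rpow_natCast, ← Real.rpow_mul (by linarith)]
              congr 1
              push_cast; ring
            rw [e1, e2]
            apply mul_le_mul_of_nonneg_left _ hK0pos.le
            apply Real.rpow_le_rpow_of_exponent_le hn1
            linarith
    have h2 : M ≤ Real.sqrt K0 * n ^ ((1 : ℝ) / 2 + ε) := by
      have h3 : M ^ 2 ≤ (Real.sqrt K0 * n ^ ((1 : ℝ) / 2 + ε)) ^ 2 := by
        rw [mul_pow, Real.sq_sqrt hK0pos.le]; exact h1
      exact le_of_sq_le_sq h3 (by positivity)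
    nlinarith
  · -- n ≤ 30
    have h1 : (n * M) ^ 2 ≤ (n / 6 + 1) * (5 * n * M ^ 2) := by
      calc (n * M) ^ 2 ≤ ((numDist P : ℝ) + 1) * (4 * n * M ^ 2 + T * n ^ 2) := hmain3
        _ ≤ (n / 6 + 1) * (5 * n * M ^ 2) := by
            apply mul_le_mul (by linarith) _ (by positivity) (by positivity)
            nlinarith
    have h2 : n ≤ 30 := by
      have h3 : 0 < n * M ^ 2 := by positivity
      have h4 : n * (n * M ^ 2) ≤ (5 * (n / 6 + 1)) * (n * M ^ 2) := by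
        calc n * (n * M ^ 2) = (n * M) ^ 2 := by ring
          _ ≤ _ := h1
          _ = _ := by ring
      have h5 := le_of_mul_le_mul_right h4 h3
      linarith
    have h3 : M ≤ n := by
      rw [hM, hn]; exact_mod_cast Finset.card_le_card hXP
    linarith

/-- Irreducible curves. -/
theorem irreducible_bound (r k : ℕ) (A ε : ℝ) (hε : 0 < ε) :
    ∃ K : ℝ, 0 < K ∧ ∀ P : Finset (ℝ × ℝ),
    2 ≤ P.card → InGap r ((P.card : ℝ) ^ A) P → (numDist P : ℝ) ≤ P.card / 6 →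
    ∀ f : MvPolynomial (Fin 2) ℝ, Irreducible f → f.totalDegree ≤ k →
      ((P.filter (fun x : ℝ × ℝ => eval ![x.1, x.2] f = 0)).card : ℝ)
        ≤ K * (P.card : ℝ) ^ ((1 : ℝ) / 2 + ε) := by
  classical
  obtain ⟨K1, hK1, hline⟩ := line_bound r A ε hε
  obtain ⟨B, hB⟩ := curve_diff k
  set A' : ℝ := max A 0 with hA'
  have hA'0 : 0 ≤ A' := le_max_right _ _
  set ε' : ℝ := 2 * ε / (A' + 1) with hε'
  have hε'0 : 0 < ε' := div_pos (by linarith) (by linarith)
  have hAe : A' * ε' ≤ 2 * ε := by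
    rw [hε', mul_div_assoc']
    rw [div_le_iff₀ (by linarith)]
    nlinarith
  obtain ⟨C, hC, hdiv⟩ := gap_div_bound (Fin r ⊕ Fin r) ε' hε'0
  set K0 : ℝ := (B : ℝ) * (C * 2 ^ ε') with hK0
  have hK0pos : 0 ≤ K0 := by positivity
  refine ⟨K1 + 1 + Real.sqrt K0, by positivity, ?_⟩
  intro P hP hgap hD f hf hfk
  set n : ℝ := (P.card : ℝ) with hn
  have hn2 : (2 : ℝ) ≤ n := by rw [hn]; exact_mod_cast hP
  have hn1 : (1 : ℝ) ≤ n := by linarith
  have hnpow : (1 : ℝ) ≤ n ^ ((1 : ℝ) / 2 + ε) := Real.one_le_rpow hn1 (by linarith)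
  set X := P.filter (fun x : ℝ × ℝ => eval ![x.1, x.2] f = 0) with hX
  have hXP : X ⊆ P := Finset.filter_subset _ _
  have hsq := Real.sqrt_nonneg K0
  rcases hB f hf hfk with ⟨α, β, γ, hαβ, hl⟩ | hcurve
  · have h1 := hline P hP hgap hD α β γ hαβ
    have h2 : (X.card : ℝ) ≤ ((P.filter (fun x : ℝ × ℝ => α * x.1 + β * x.2 + γ = 0)).card : ℝ) := by
      have : X ⊆ P.filter (fun x : ℝ × ℝ => α * x.1 + β * x.2 + γ = 0) := by
        intro x hx
        rw [hX, Finset.mem_filter] at hx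
        exact Finset.mem_filter.2 ⟨hx.1, hl _ _ hx.2⟩
      exact_mod_cast Finset.card_le_card this
    calc (X.card : ℝ) ≤ K1 * n ^ ((1 : ℝ) / 2 + ε) := h2.trans h1
      _ ≤ (K1 + 1 + Real.sqrt K0) * n ^ ((1 : ℝ) / 2 + ε) := by
          apply mul_le_mul_of_nonneg_right _ (by linarith)
          linarith
  -- the gap
  obtain ⟨o, a, hoa⟩ := InGap.mono (H' := n ^ A')
    (Real.rpow_le_rpow_of_exponent_le hn1 (le_max_left _ _)) hgap
  set H : ℝ := n ^ A' with hH
  have hH1 : 1 ≤ H := Real.one_le_rpow hn1 hA'0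
  set a' : Fin r → ℂ := fun i => toC (a i) with ha'
  set g : Fin r ⊕ Fin r → ℂ := Sum.elim a' (fun i => conj (a' i)) with hg
  have h2H : (1 : ℝ) ≤ 2 * H := by linarith
  set T : ℕ := ⌊C * (2 * H) ^ ε'⌋₊ with hT
  have hTle : (T : ℝ) ≤ C * (2 * H) ^ ε' := Nat.floor_le (by positivity)
  have hmain := many_distances X B T (by
    intro v hv S hS
    refine hcurve v hv S ?_
    intro p hp
    obtain ⟨h1, h2⟩ := hS p hp
    exact ⟨(Finset.mem_filter.1 h1).2, (Finset.mem_filter.1 h2).2⟩) (by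
    intro t ht S hS
    rw [← Finset.card_image_of_injective S toC_injective]
    apply Nat.le_floor
    refine hdiv _ h2H g (t : ℂ) (by exact_mod_cast ht) _ ?_
    intro d hd
    obtain ⟨v, hv, rfl⟩ := Finset.mem_image.1 hd
    obtain ⟨h1, p, hp, hpv⟩ := hS v hv
    have h3 : toC v ∈ gap a' (2 * H) := by
      have := inGap_diff hoa (hXP hpv) (hXP hp)
      rw [← toC_sub] at this
      simpa using this
    refine ⟨gap_inl _ _ h3 (by linarith), conj (toC v), gap_inr _ _ (gap_conj _ h3) (by linarith), ?_⟩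
    rw [Complex.mul_conj, normSq_toC, h1])
  set M : ℝ := (X.card : ℝ) with hM
  have hsub : (X.offDiag.image (fun pq : (ℝ × ℝ) × (ℝ × ℝ) =>
        (pq.1.1 - pq.2.1) ^ 2 + (pq.1.2 - pq.2.2) ^ 2)).card ≤ numDist P := by
    unfold numDist
    exact Finset.card_le_card (Finset.image_subset_image (Finset.offDiag_mono hXP))
  rcases Nat.lt_or_ge 1 X.card with hXc | hXc
  swap
  · have : M ≤ 1 := by rw [hM]; exact_mod_cast hXc
    calc M ≤ 1 := this
      _ ≤ (K1 + 1 + Real.sqrt K0) * n ^ ((1 : ℝ) / 2 + ε) := by nlinarith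
  have hM2 : (2 : ℝ) ≤ M := by rw [hM]; exact_mod_cast hXc
  have hmain2 : M * (M - 1) ≤ n / 6 * (B * T) := by
    have h1 : X.card * (X.card - 1) ≤ numDist P * (B * T) := hmain.trans (Nat.mul_le_mul_right _ hsub)
    have h2 : M * (M - 1) ≤ (numDist P : ℝ) * (B * T) := by
      have h3 : ((X.card * (X.card - 1) : ℕ) : ℝ) ≤ ((numDist P * (B * T) : ℕ) : ℝ) := by
        exact_mod_cast h1
      push_cast [Nat.cast_sub hXc.le] at h3
      exact h3
    refine h2.trans ?_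
    apply mul_le_mul_of_nonneg_right hD (by positivity)
  have hM3 : M ^ 2 ≤ n * (B * T) := by
    have h1 : M ^ 2 ≤ 2 * (M * (M - 1)) := by nlinarith
    have h2 : (0 : ℝ) ≤ n * (B * T) := by positivity
    nlinarith
  have h1 : M ^ 2 ≤ K0 * (n ^ ((1 : ℝ) / 2 + ε)) ^ 2 := by
    calc M ^ 2 ≤ n * (B * T) := hM3
      _ ≤ n * (B * (C * (2 * H) ^ ε')) := by gcongr
      _ = K0 * (H ^ ε' * n) := by
          rw [Real.mul_rpow (by norm_num) (by positivity), hK0]; ring
      _ ≤ K0 * (n ^ ((1 : ℝ) / 2 + ε)) ^ 2 := by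
          have e1 : H ^ ε' * n = n ^ (A' * ε' + 1) := by
            rw [hH, ← Real.rpow_mul (by linarith), Real.rpow_add (by linarith), Real.rpow_one]
          have e2 : (n ^ ((1 : ℝ) / 2 + ε)) ^ 2 = n ^ (2 * ε + 1) := by
            rw [← Real.rpow_natCast, ← Real.rpow_mul (by linarith)]
            congr 1
            push_cast; ring
          rw [e1, e2]
          apply mul_le_mul_of_nonneg_left _ hK0pos
          apply Real.rpow_le_rpow_of_exponent_le hn1
          linarith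
  have h2 : M ≤ Real.sqrt K0 * n ^ ((1 : ℝ) / 2 + ε) := by
    have h3 : M ^ 2 ≤ (Real.sqrt K0 * n ^ ((1 : ℝ) / 2 + ε)) ^ 2 := by
      rw [mul_pow, Real.sq_sqrt hK0pos]; exact h1
    exact le_of_sq_le_sq h3 (by positivity)
  nlinarith

theorem main_aux (r d : ℕ) (A ε : ℝ) (hε : 0 < ε) : ∃ K : ℝ, 0 < K ∧ ∀ P : Finset (ℝ × ℝ),
    2 ≤ P.card → InGap r ((P.card : ℝ) ^ A) P → (numDist P : ℝ) ≤ P.card / 6 →
    ∀ f : MvPolynomial (Fin 2) ℝ, f ≠ 0 → f.totalDegree ≤ d →
      ((P.filter (fun x : ℝ × ℝ => eval ![x.1, x.2] f = 0)).card : ℝ)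
        ≤ K * (P.card : ℝ) ^ ((1 : ℝ) / 2 + ε) := by
  classical
  obtain ⟨K1, hK1, hirr⟩ := irreducible_bound r d A ε hε
  refine ⟨d * K1 + 1, by positivity, ?_⟩
  intro P hP hgap hD
  set n : ℝ := (P.card : ℝ) with hn
  have hn2 : (2 : ℝ) ≤ n := by rw [hn]; exact_mod_cast hP
  have hnpow : (1 : ℝ) ≤ n ^ ((1 : ℝ) / 2 + ε) := Real.one_le_rpow (by linarith) (by linarith)
  have key : ∀ f : MvPolynomial (Fin 2) ℝ, f ≠ 0 → f.totalDegree ≤ d →
      ((P.filter (fun x : ℝ × ℝ => eval ![x.1, x.2] f = 0)).card : ℝ)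
        ≤ f.totalDegree * (K1 * n ^ ((1 : ℝ) / 2 + ε)) := by
    intro f
    refine WfDvdMonoid.induction_on_irreducible f ?_ ?_ ?_
    · intro h; exact absurd rfl h
    · intro u hu _ _
      have h1 : P.filter (fun x : ℝ × ℝ => eval ![x.1, x.2] u = 0) = ∅ := by
        rw [Finset.filter_eq_empty_iff]
        intro x _ h
        have h2 := hu.map (eval ![x.1, x.2])
        rw [h] at h2
        exact not_isUnit_zero h2
      rw [h1]
      simp only [Finset.card_empty, Nat.cast_zero]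
      positivity
    · intro a i ha hi ih hne hdeg
      have hi0 : i ≠ 0 := hi.ne_zero
      have htd : (i * a).totalDegree = i.totalDegree + a.totalDegree :=
        MvPolynomial.totalDegree_mul_of_isDomain hi0 ha
      have hi1 : 1 ≤ i.totalDegree := by
        by_contra h
        have h0 : i.totalDegree = 0 := by omega
        rw [MvPolynomial.totalDegree_eq_zero_iff_eq_C] at h0
        apply hi.not_isUnit
        rw [h0]
        apply IsUnit.map
        apply isUnit_iff_ne_zero.2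
        intro h1
        rw [h1, map_zero] at h0
        exact hi0 h0
      have h1 := hirr P hP hgap hD i hi (by omega)
      have h2 := ih ha (by omega)
      have h3 : P.filter (fun x : ℝ × ℝ => eval ![x.1, x.2] (i * a) = 0) ⊆
          P.filter (fun x : ℝ × ℝ => eval ![x.1, x.2] i = 0) ∪
          P.filter (fun x : ℝ × ℝ => eval ![x.1, x.2] a = 0) := by
        intro x hx
        rw [Finset.mem_filter, map_mul, mul_eq_zero] at hx
        rw [Finset.mem_union, Finset.mem_filter, Finset.mem_filter]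
        tauto
      have h4 : ((P.filter (fun x : ℝ × ℝ => eval ![x.1, x.2] (i * a) = 0)).card : ℝ) ≤
          ((P.filter (fun x : ℝ × ℝ => eval ![x.1, x.2] i = 0)).card : ℝ) +
          ((P.filter (fun x : ℝ × ℝ => eval ![x.1, x.2] a = 0)).card : ℝ) := by
        exact_mod_cast (Finset.card_le_card h3).trans (Finset.card_union_le _ _)
      rw [htd]
      push_cast
      have h5 : (1 : ℝ) ≤ i.totalDegree := by exact_mod_cast hi1
      have h6 : 0 ≤ K1 * n ^ ((1 : ℝ) / 2 + ε) := by positivity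
      calc _ ≤ _ := h4
        _ ≤ K1 * n ^ ((1 : ℝ) / 2 + ε) + a.totalDegree * (K1 * n ^ ((1 : ℝ) / 2 + ε)) :=
            add_le_add h1 h2
        _ ≤ (i.totalDegree + a.totalDegree) * (K1 * n ^ ((1 : ℝ) / 2 + ε)) := by nlinarith
  intro f hf hfd
  refine (key f hf hfd).trans ?_
  have h5 : (f.totalDegree : ℝ) ≤ d := by exact_mod_cast hfd
  have h6 : 0 ≤ K1 * n ^ ((1 : ℝ) / 2 + ε) := by positivity
  calc _ ≤ (d : ℝ) * (K1 * n ^ ((1 : ℝ) / 2 + ε)) := mul_le_mul_of_nonneg_right h5 h6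
    _ ≤ (d * K1 + 1) * n ^ ((1 : ℝ) / 2 + ε) := by nlinarith

theorem main (C A : ℝ) (r d : ℕ) (ε : ℝ) (hε : 0 < ε) : ∃ K : ℝ, ∀ P : Finset (ℝ × ℝ),
    2 ≤ P.card → InGap r ((P.card : ℝ) ^ A) P →
    ((numDist P : ℝ) ≤ P.card / 6 ∨
      (numDist P : ℝ) ≤ C * (P.card : ℝ) / Real.sqrt (Real.log (P.card : ℝ))) →
    ∀ f : MvPolynomial (Fin 2) ℝ, f ≠ 0 → f.totalDegree ≤ d →
      ((P.filter (fun x : ℝ × ℝ => eval ![x.1, x.2] f = 0)).card : ℝ)
        ≤ K * (P.card : ℝ) ^ ((1 : ℝ) / 2 + ε) := by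
  classical
  obtain ⟨K1, hK1, hmain⟩ := main_aux r d A ε hε
  set n0 : ℝ := Real.exp ((6 * |C| + 1) ^ 2) with hn0
  have hn0pos : 0 < n0 := Real.exp_pos _
  refine ⟨K1 + n0, ?_⟩
  intro P hP hgap hD f hf hfd
  set n : ℝ := (P.card : ℝ) with hn
  have hn2 : (2 : ℝ) ≤ n := by rw [hn]; exact_mod_cast hP
  have hnpow : (1 : ℝ) ≤ n ^ ((1 : ℝ) / 2 + ε) := Real.one_le_rpow (by linarith) (by linarith)
  rcases lt_or_ge n n0 with hsmall | hlarge
  · have h1 : ((P.filter (fun x : ℝ × ℝ => eval ![x.1, x.2] f = 0)).card : ℝ) ≤ n := by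
      rw [hn]; exact_mod_cast Finset.card_le_card (Finset.filter_subset _ _)
    nlinarith
  · have hD' : (numDist P : ℝ) ≤ n / 6 := by
      rcases hD with h | h
      · exact h
      · refine h.trans ?_
        have h1 : (6 * |C| + 1) ^ 2 ≤ Real.log n := by
          rw [Real.le_log_iff_exp_le (by linarith)]; exact hlarge
        have h2 : 6 * |C| + 1 ≤ Real.sqrt (Real.log n) := by
          apply Real.le_sqrt_of_sq_le h1
        have h3 : 0 < Real.sqrt (Real.log n) := by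
          have := abs_nonneg C
          linarith
        rw [div_le_iff₀ h3]
        have h4 := le_abs_self C
        have h5 : 6 * C ≤ Real.sqrt (Real.log n) := by linarith
        nlinarith
    have h1 := hmain P hP hgap hD' f hf hfd
    nlinarith

end Pool.Agent.W_MP_96b415_co
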