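import Pool.Agent.W_MP_96b415_co.Defs

/-! Avoidance in the ultrapower of `ℂ`: one bounded (nonstandard) integer point keeps all
members of a hyperfinite family of polynomials nonzero. -/

set_option autoImplicit false

namespace Pool.Agent.W_MP_96b415_co

open MvPolynomial Filter

/-- The ultrapower of `ℂ` along the hyperfilter on `ℕ`. -/
abbrev StarC : Type := Germ (hyperfilter ℕ : Filter ℕ) ℂ

/-- The surjection from sequences to the ultrapower. -/
noncomputable def starMap : (ℕ → ℂ) →+* StarC := Germ.coeRingHom (hyperfilter ℕ : Filter ℕ)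

theorem starMap_apply (f : ℕ → ℂ) : starMap f = (f : StarC) := rfl

theorem starMap_surjective : Function.Surjective starMap := by
  intro x
  induction x using Germ.inductionOn with
  | h f => exact ⟨f, rfl⟩

theorem starMap_eq_zero_iff (f : ℕ → ℂ) :
    starMap f = 0 ↔ ∀ᶠ j in (hyperfilter ℕ : Filter ℕ), f j = 0 := by
  rw [starMap_apply]
  constructor
  · intro h
    exact Germ.coe_eq.mp (h : (f : StarC) = ((0 : ℕ → ℂ) : StarC))
  · intro h
    exact (Germ.coe_eq.mpr h : (f : StarC) = ((0 : ℕ → ℂ) : StarC))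

instance : IsAlgClosed StarC := by
  refine IsAlgClosed.of_exists_root StarC ?_
  intro p hp hirr
  choose a ha using fun k : ℕ => starMap_surjective (p.coeff k)
  set n := p.natDegree with hn
  have hn0 : n ≠ 0 := by
    intro h0
    have h1 : p = 1 := hp.natDegree_eq_zero.mp (by rw [← hn]; exact h0)
    exact hirr.not_isUnit (h1 ▸ isUnit_one)
  have key : ∀ j : ℕ, ∃ z : ℂ, z ^ n + ∑ k ∈ Finset.range n, a k j * z ^ k = 0 := by
    intro j
    set q : Polynomial ℂ := Polynomial.X ^ n + ∑ k ∈ Finset.range n,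
      Polynomial.C (a k j) * Polynomial.X ^ k with hq
    have hdeg : (∑ k ∈ Finset.range n,
      Polynomial.C (a k j) * Polynomial.X ^ k : Polynomial ℂ).degree < n := by
      refine lt_of_le_of_lt (Polynomial.degree_sum_le _ _) ?_
      refine (Finset.sup_lt_iff (WithBot.bot_lt_coe n)).mpr ?_
      intro k hk
      refine lt_of_le_of_lt (Polynomial.degree_C_mul_X_pow_le k _) ?_
      exact WithBot.coe_lt_coe.mpr (Finset.mem_range.mp hk)
    have hdq : q.degree = n := by
      rw [hq, Polynomial.degree_add_eq_left_of_degree_lt]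
      · exact Polynomial.degree_X_pow n
      · rw [Polynomial.degree_X_pow]; exact hdeg
    obtain ⟨z, hz⟩ := IsAlgClosed.exists_root q (by rw [hdq]; exact_mod_cast hn0)
    refine ⟨z, ?_⟩
    have := hz
    rw [Polynomial.IsRoot.def, hq] at this
    simpa [Polynomial.eval_finsetSum] using this
  choose r hr using key
  refine ⟨starMap r, ?_⟩
  rw [hp.as_sum, ← hn]
  rw [Polynomial.eval_add, Polynomial.eval_pow, Polynomial.eval_X, Polynomial.eval_finsetSum]
  have h2 : starMap (r ^ n + ∑ k ∈ Finset.range n, a k * r ^ k) = 0 := by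
    rw [starMap_eq_zero_iff]
    refine Filter.Eventually.of_forall fun j => ?_
    have := hr j
    simpa [Finset.sum_apply] using this
  rw [map_add, map_pow, map_sum] at h2
  rw [← h2]
  congr 1
  refine Finset.sum_congr rfl fun k _ => ?_
  rw [map_mul, map_pow, ha k]
  simp

/-- The projection of a family of polynomials to the `j`-th index. -/
noncomputable def avProj (s j : ℕ) : MvPolynomial (Fin s) (ℕ → ℂ) →+* MvPolynomial (Fin s) ℂ :=
  MvPolynomial.map (Pi.evalRingHom (fun _ : ℕ => ℂ) j)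

/-- The specialization at index `j` and integer point `y`. -/
noncomputable def avSpec {ι : Type} {s : ℕ} (Γ' : MvPolynomial ι (MvPolynomial (Fin s) (ℕ → ℂ)))
    (j : ℕ) (y : ι → ℤ) : MvPolynomial (Fin s) ℂ :=
  eval₂ (avProj s j) (fun i => (C ((y i : ℤ) : ℂ) : MvPolynomial (Fin s) ℂ)) Γ'

theorem totalDegree_avProj_le {s : ℕ} (j : ℕ) (p : MvPolynomial (Fin s) (ℕ → ℂ)) :
    (avProj s j p).totalDegree ≤ p.totalDegree := by
  unfold avProj MvPolynomial.totalDegree
  exact Finset.sup_mono (support_map_subset _ _)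

theorem totalDegree_avSpec_le {ι : Type} {s : ℕ}
    (Γ' : MvPolynomial ι (MvPolynomial (Fin s) (ℕ → ℂ))) (j : ℕ) (y : ι → ℤ) :
    (avSpec Γ' j y).totalDegree ≤ Γ'.support.sup (fun m => (Γ'.coeff m).totalDegree) := by
  unfold avSpec
  rw [eval₂_eq]
  refine totalDegree_finsetSum_le fun m hm => ?_
  refine (totalDegree_mul _ _).trans ?_
  have h1 : (∏ i ∈ m.support, (C ((y i : ℤ) : ℂ) : MvPolynomial (Fin s) ℂ) ^ m i) =
      C (∏ i ∈ m.support, ((y i : ℤ) : ℂ) ^ m i) := by
    rw [map_prod]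
    exact Finset.prod_congr rfl fun i _ => (map_pow _ _ _).symm
  rw [h1, totalDegree_C, add_zero]
  exact (totalDegree_avProj_le j _).trans
    (Finset.le_sup (f := fun m => (Γ'.coeff m).totalDegree) hm)

theorem avExists_point_ne_zero {s : ℕ} (Q : MvPolynomial (Fin s) ℂ) (hQ : Q ≠ 0) (M : ℕ)
    (hM : Q.totalDegree ≤ M) : ∃ c : Fin s → ℕ, (∀ i, c i ≤ M) ∧
      eval (fun i => ((c i : ℕ) : ℂ)) Q ≠ 0 := by
  classical
  by_contra hcon
  push Not at hcon
  apply hQ
  refine eq_zero_of_eval_zero_at_prod_finset Q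
    (fun _ => (Finset.range (M + 1)).image (fun k : ℕ => (k : ℂ))) ?_ ?_
  · intro i
    rw [Finset.card_image_of_injective _ Nat.cast_injective, Finset.card_range]
    exact Nat.lt_succ_of_le ((degreeOf_le_totalDegree Q i).trans hM)
  · intro x hx
    have h1 : ∀ i, ∃ k : ℕ, k ≤ M ∧ (k : ℂ) = x i := by
      intro i
      obtain ⟨k, hk, hk2⟩ := Finset.mem_image.mp (hx i)
      exact ⟨k, Nat.lt_succ_iff.mp (Finset.mem_range.mp hk), hk2⟩
    choose c hc hcx using h1
    have := hcon c hc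
    rwa [show (fun i => ((c i : ℕ) : ℂ)) = x from funext hcx] at this

/-- Schwartz–Zippel in the ultrapower. -/
theorem exists_internal_point (ι : Type) [Fintype ι] (s : ℕ)
    (Γ : MvPolynomial ι (MvPolynomial (Fin s) StarC)) (N : ℕ → ℕ) (hN : ∀ j, 2 ≤ N j) (κ : ℕ) :
    ∃ (κ' : ℕ) (c : ℕ → Fin s → ℕ), (∀ j i, c j i ≤ (N j) ^ κ') ∧
      ∀ x : ℕ → ι → ℤ, (∀ j i, |x j i| ≤ ((N j : ℕ) : ℤ) ^ κ) →
        eval (fun i => (C ((fun j => ((x j i : ℤ) : ℂ)) : StarC) :
          MvPolynomial (Fin s) StarC)) Γ ≠ 0 →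
        eval (fun i => ((fun j => ((c j i : ℕ) : ℂ)) : StarC))
          (eval (fun i => (C ((fun j => ((x j i : ℤ) : ℂ)) : StarC) :
            MvPolynomial (Fin s) StarC)) Γ) ≠ 0 := by
  classical
  obtain ⟨Γ', hΓ'⟩ := map_surjective (σ := ι)
    (MvPolynomial.map (σ := Fin s) starMap) (map_surjective _ starMap_surjective) Γ
  set Δ := Γ'.support.sup (fun m => (Γ'.coeff m).totalDegree) with hΔ
  set κ' := (κ + 2) * Fintype.card ι + Δ with hκ'
  set Box : ℕ → Finset (ι → ℤ) := fun j =>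
    Fintype.piFinset (fun _ : ι => Finset.Icc (-(((N j : ℕ) : ℤ) ^ κ)) (((N j : ℕ) : ℤ) ^ κ))
    with hBox
  set Q : ℕ → MvPolynomial (Fin s) ℂ := fun j =>
    ∏ y ∈ (Box j).filter (fun y => avSpec Γ' j y ≠ 0), avSpec Γ' j y with hQdef
  have hQ0 : ∀ j, Q j ≠ 0 := fun j =>
    Finset.prod_ne_zero_iff.mpr fun y hy => (Finset.mem_filter.mp hy).2
  have hcard : ∀ j, (Box j).card = (2 * N j ^ κ + 1) ^ Fintype.card ι := by
    intro j
    rw [hBox]
    simp only [Fintype.card_piFinset, Int.card_Icc, Finset.prod_const, Finset.card_univ]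
    congr 1
    have : ((N j : ℕ) : ℤ) ^ κ + 1 - -(((N j : ℕ) : ℤ) ^ κ) = ((2 * N j ^ κ + 1 : ℕ) : ℤ) := by
      push_cast; ring
    rw [this, Int.toNat_natCast]
  have hQdeg : ∀ j, (Q j).totalDegree ≤ N j ^ κ' := by
    intro j
    have hN1 : 1 ≤ N j := le_trans (by norm_num) (hN j)
    calc (Q j).totalDegree
        ≤ ∑ y ∈ (Box j).filter (fun y => avSpec Γ' j y ≠ 0), (avSpec Γ' j y).totalDegree :=
          totalDegree_finsetProd _ _
      _ ≤ ∑ y ∈ (Box j).filter (fun y => avSpec Γ' j y ≠ 0), Δ :=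
          Finset.sum_le_sum fun y _ => totalDegree_avSpec_le Γ' j y
      _ = ((Box j).filter (fun y => avSpec Γ' j y ≠ 0)).card * Δ := by
          rw [Finset.sum_const, smul_eq_mul]
      _ ≤ (Box j).card * Δ := Nat.mul_le_mul_right _ (Finset.card_filter_le _ _)
      _ = (2 * N j ^ κ + 1) ^ Fintype.card ι * Δ := by rw [hcard]
      _ ≤ (N j ^ (κ + 2)) ^ Fintype.card ι * N j ^ Δ := by
          refine Nat.mul_le_mul (Nat.pow_le_pow_left ?_ _) ?_
          · have h1 : 1 ≤ N j ^ κ := Nat.one_le_pow _ _ hN1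
            have h2 : 4 ≤ N j ^ 2 := by nlinarith [hN j]
            have h3 : N j ^ (κ + 2) = N j ^ κ * N j ^ 2 := pow_add _ _ _
            rw [h3]
            nlinarith
          · calc Δ ≤ 2 ^ Δ := Nat.lt_two_pow_self.le
              _ ≤ N j ^ Δ := Nat.pow_le_pow_left (hN j) _
      _ = N j ^ κ' := by rw [hκ', ← pow_mul, ← pow_add]
  choose c hc hcQ using fun j => avExists_point_ne_zero (Q j) (hQ0 j) (N j ^ κ') (hQdeg j)
  refine ⟨κ', c, hc, ?_⟩
  intro x hx hne
  -- the lifted polynomial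
  set P' : MvPolynomial (Fin s) (ℕ → ℂ) :=
    eval (fun i => (C (fun j => ((x j i : ℤ) : ℂ)) : MvPolynomial (Fin s) (ℕ → ℂ))) Γ' with hP'
  have hP : eval (fun i => (C ((fun j => ((x j i : ℤ) : ℂ)) : StarC) :
      MvPolynomial (Fin s) StarC)) Γ = MvPolynomial.map starMap P' := by
    rw [← hΓ', eval_map, hP', eval₂_comp]
    congr 1
    funext i
    simp [starMap_apply]
  have hPj : ∀ j, avProj s j P' = avSpec Γ' j (x j) := by
    intro j
    rw [hP', eval₂_comp]
    unfold avSpec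
    congr 1
    funext i
    simp [avProj]
  rw [hP] at hne ⊢
  -- eventually nonzero
  have hev : ∀ᶠ j in (hyperfilter ℕ : Filter ℕ), avProj s j P' ≠ 0 := by
    obtain ⟨m, hm⟩ := MvPolynomial.ne_zero_iff.mp hne
    rw [coeff_map] at hm
    have h1 : ¬ ∀ᶠ j in (hyperfilter ℕ : Filter ℕ), (P'.coeff m) j = 0 := by
      rw [← starMap_eq_zero_iff]; exact hm
    rw [← Ultrafilter.eventually_not] at h1
    filter_upwards [h1] with j hj h0
    apply hj
    have : (avProj s j P').coeff m = 0 := by rw [h0, coeff_zero]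
    rw [avProj, coeff_map] at this
    simpa using this
  -- evaluate
  have hval : eval (fun i => ((fun j => ((c j i : ℕ) : ℂ)) : StarC)) (MvPolynomial.map starMap P') =
      starMap (eval (fun i => (fun j => ((c j i : ℕ) : ℂ))) P') := by
    rw [eval_map, eval₂_comp]
    rfl
  rw [hval]
  intro h0
  rw [starMap_eq_zero_iff] at h0
  obtain ⟨j, hj1, hj2⟩ := (hev.and h0).exists
  have hev2 : (eval (fun i => (fun j => ((c j i : ℕ) : ℂ))) P' : ℕ → ℂ) j =
      eval (fun i => ((c j i : ℕ) : ℂ)) (avProj s j P') := by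
    have := eval₂_comp (Pi.evalRingHom (fun _ : ℕ => ℂ) j)
      (fun i => (fun j => ((c j i : ℕ) : ℂ))) P'
    rw [avProj, eval_map]
    exact this
  rw [hev2, hPj] at hj2
  rw [hPj] at hj1
  apply hcQ j
  rw [hQdef, map_prod]
  refine Finset.prod_eq_zero (i := x j) ?_ hj2
  refine Finset.mem_filter.mpr ⟨?_, hj1⟩
  rw [hBox, Fintype.mem_piFinset]
  intro i
  exact Finset.mem_Icc.mpr (abs_le.mp (hx j i))

end Pool.Agent.W_MP_96b415_co
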