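import Pool.Agent.W_MP_96b415_co.Defs

/-! A uniform weak Bezout bound for plane curves. -/

set_option autoImplicit false

namespace Pool.Agent.W_MP_96b415_co

open MvPolynomial

namespace Bez

lemma eval_F (f : MvPolynomial (Fin 2) ℝ) (a b : ℝ) :
    eval ![a, b] f = Polynomial.eval a (Polynomial.map (eval ![b]) (finSuccEquiv ℝ 1 f)) :=
  eval_eq_eval_mv_eval' ![b] a f

lemma sub_dvd (b : ℝ) (c : MvPolynomial (Fin 1) ℝ) :
    (X 0 - C b : MvPolynomial (Fin 1) ℝ) ∣ c - C (eval ![b] c) := by
  induction c using MvPolynomial.induction_on with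
  | C r => simp
  | add p q hp hq =>
    have := dvd_add hp hq
    simp only [map_add]
    convert this using 1
    ring
  | mul_X p i hp =>
    have hi : i = 0 := Subsingleton.elim _ _
    subst hi
    have h1 := (hp.mul_right (X 0)).add
      ((dvd_refl (X 0 - C b : MvPolynomial (Fin 1) ℝ)).mul_left (C (eval ![b] p)))
    convert h1 using 1
    simp only [map_mul, eval_X, Matrix.cons_val_zero]
    ring

lemma dvd_of_eval (b : ℝ) (c : MvPolynomial (Fin 1) ℝ) (h : eval ![b] c = 0) :
    (X 0 - C b : MvPolynomial (Fin 1) ℝ) ∣ c := by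
  have := sub_dvd b c
  rw [h] at this
  simpa using this

lemma assoc_line (f : MvPolynomial (Fin 2) ℝ) (hf : Irreducible f) (b : ℝ)
    (h : Polynomial.map (eval ![b]) (finSuccEquiv ℝ 1 f) = 0) :
    Associated (X 1 - C b : MvPolynomial (Fin 2) ℝ) f := by
  have h1 : Polynomial.C (X 0 - C b : MvPolynomial (Fin 1) ℝ) ∣ finSuccEquiv ℝ 1 f := by
    rw [Polynomial.C_dvd_iff_dvd_coeff]
    intro i
    apply dvd_of_eval
    have := congrArg (fun P => Polynomial.coeff P i) h
    simpa [Polynomial.coeff_map] using this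
  have h2 : finSuccEquiv ℝ 1 (X 1 - C b) = Polynomial.C (X 0 - C b : MvPolynomial (Fin 1) ℝ) := by
    rw [map_sub, show (1 : Fin 2) = Fin.succ 0 from rfl, finSuccEquiv_X_succ, finSuccEquiv_apply]
    simp
  rw [← h2] at h1
  have h3 : (X 1 - C b : MvPolynomial (Fin 2) ℝ) ∣ f := by
    obtain ⟨q, hq⟩ := h1
    refine ⟨(finSuccEquiv ℝ 1).symm q, ?_⟩
    apply (finSuccEquiv ℝ 1).injective
    rw [hq, map_mul, AlgEquiv.apply_symm_apply]
  obtain ⟨q, hq⟩ := h3
  rcases hf.isUnit_or_isUnit hq with hu | hu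
  · exfalso
    have := hu.map (eval ![0, b])
    simp at this
  · rw [hq]
    exact (associated_mul_unit_right _ _ hu)

lemma assoc_of_F {f g : MvPolynomial (Fin 2) ℝ}
    (h : Associated (finSuccEquiv ℝ 1 f) (finSuccEquiv ℝ 1 g)) : Associated f g := by
  have := h.map (finSuccEquiv ℝ 1).symm
  simpa using this

lemma irr_F {f : MvPolynomial (Fin 2) ℝ} (h : Irreducible f) :
    Irreducible (finSuccEquiv ℝ 1 f) :=
  (MulEquiv.irreducible_iff (finSuccEquiv ℝ 1)).2 h

lemma res_ne_zero (P Q : Polynomial (MvPolynomial (Fin 1) ℝ)) (hP : Irreducible P)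
    (hQ : Irreducible Q) (hPQ : ¬ Associated P Q) : Polynomial.resultant P Q ≠ 0 := by
  classical
  obtain ⟨_⟩ : Nonempty (NormalizedGCDMonoid (MvPolynomial (Fin 1) ℝ)) := inferInstance
  set K := FractionRing (MvPolynomial (Fin 1) ℝ)
  set φ := algebraMap (MvPolynomial (Fin 1) ℝ) K
  have hφ : Function.Injective φ := IsFractionRing.injective _ _
  intro h0
  have h1 : Polynomial.resultant (P.map φ) (Q.map φ) = 0 := by
    have := Polynomial.resultant_map_map P Q P.natDegree Q.natDegree φ
    rw [Polynomial.natDegree_map_eq_of_injective hφ, Polynomial.natDegree_map_eq_of_injective hφ,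
      this, h0, map_zero]
  rw [Polynomial.resultant_eq_zero_iff] at h1
  apply h1.2
  by_cases hP0 : P.natDegree = 0
  · obtain ⟨c, rfl⟩ := Polynomial.natDegree_eq_zero.1 hP0
    have hc : c ≠ 0 := by rintro rfl; exact hP.ne_zero (by simp)
    have hu : IsUnit ((Polynomial.C c).map φ) := by
      rw [Polynomial.map_C]
      exact Polynomial.isUnit_C.2 (isUnit_iff_ne_zero.2 (by
        rw [Ne, map_eq_zero_iff φ hφ]; exact hc))
    exact ⟨((hu.unit⁻¹ : Units _) : _), 0, by rw [zero_mul, add_zero]; exact hu.val_inv_mul⟩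
  by_cases hQ0 : Q.natDegree = 0
  · obtain ⟨c, rfl⟩ := Polynomial.natDegree_eq_zero.1 hQ0
    have hc : c ≠ 0 := by rintro rfl; exact hQ.ne_zero (by simp)
    have hu : IsUnit ((Polynomial.C c).map φ) := by
      rw [Polynomial.map_C]
      exact Polynomial.isUnit_C.2 (isUnit_iff_ne_zero.2 (by
        rw [Ne, map_eq_zero_iff φ hφ]; exact hc))
    exact ⟨0, ((hu.unit⁻¹ : Units _) : _), by rw [zero_mul, zero_add]; exact hu.val_inv_mul⟩
  have hPp : P.IsPrimitive := hP.isPrimitive hP0
  have hPi : Irreducible (P.map φ) :=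
    (hPp.irreducible_iff_irreducible_map_fraction_map (K := K)).1 hP
  rw [hPi.coprime_iff_not_dvd]
  intro hd
  have := hPp.dvd_of_fraction_map_dvd_fraction_map (K := K) hd
  exact hPQ (hP.associated_of_dvd hQ this)

lemma tdeg_coeff (f : MvPolynomial (Fin 2) ℝ) (k i : ℕ) (hf : f.totalDegree ≤ k) :
    ((finSuccEquiv ℝ 1 f).coeff i).totalDegree ≤ k := by
  by_cases h : (finSuccEquiv ℝ 1 f).coeff i = 0
  · rw [h]; simp
  · have := totalDegree_coeff_finSuccEquiv_add_le f i h
    omega

lemma natDeg_F (f : MvPolynomial (Fin 2) ℝ) (k : ℕ) (hf : f.totalDegree ≤ k) :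
    (finSuccEquiv ℝ 1 f).natDegree ≤ k := by
  rw [natDegree_finSuccEquiv]
  exact (degreeOf_le_totalDegree f 0).trans hf

lemma tdeg_res (f g : MvPolynomial (Fin 2) ℝ) (k : ℕ) (hf : f.totalDegree ≤ k)
    (hg : g.totalDegree ≤ k) :
    (Polynomial.resultant (finSuccEquiv ℝ 1 f) (finSuccEquiv ℝ 1 g)).totalDegree ≤
      2 * k * k := by
  set P := finSuccEquiv ℝ 1 f
  set Q := finSuccEquiv ℝ 1 g
  have hm : P.natDegree ≤ k := natDeg_F f k hf
  have hn : Q.natDegree ≤ k := natDeg_F g k hg
  have hent : ∀ i j, (Polynomial.sylvester P Q P.natDegree Q.natDegree i j).totalDegree ≤ k := by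
    intro i j
    unfold Polynomial.sylvester
    induction j using Fin.addCases with
    | left j =>
      simp only [Matrix.of_apply, Fin.addCases_left]
      split_ifs
      · exact tdeg_coeff g k _ hg
      · simp
    | right j =>
      simp only [Matrix.of_apply, Fin.addCases_right]
      split_ifs
      · exact tdeg_coeff f k _ hf
      · simp
  unfold Polynomial.resultant
  rw [Matrix.det_apply]
  apply totalDegree_finsetSum_le
  intro σ _
  refine (totalDegree_smul_le _ _).trans ?_
  refine (totalDegree_finsetProd _ _).trans ?_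
  calc ∑ i, (Polynomial.sylvester P Q P.natDegree Q.natDegree (σ i) i).totalDegree
      ≤ ∑ _i : Fin (P.natDegree + Q.natDegree), k := Finset.sum_le_sum fun i _ => hent _ _
    _ = (P.natDegree + Q.natDegree) * k := by simp
    _ ≤ 2 * k * k := by gcongr; omega

lemma root_count (r : MvPolynomial (Fin 1) ℝ) (hr : r ≠ 0) (T : Finset ℝ)
    (h : ∀ b ∈ T, eval ![b] r = 0) : T.card ≤ r.totalDegree := by
  classical
  rcases T.eq_empty_or_nonempty with rfl | hT
  · simp
  have h1 := schwartz_zippel_totalDegree hr T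
  have h2 : (Finset.filter (fun v => eval v r = 0) (Fintype.piFinset fun _ : Fin 1 => T)).card
      = T.card := by
    rw [Finset.filter_true_of_mem]
    · simp
    · intro v hv
      have hv0 : v 0 ∈ T := by
        rw [Fintype.mem_piFinset] at hv
        exact hv 0
      have : v = ![v 0] := by
        ext i
        have : i = 0 := Subsingleton.elim _ _
        subst this; rfl
      rw [this]
      exact h _ hv0
  rw [h2, pow_one] at h1
  have hT0 : (0 : ℚ≥0) < T.card := by exact_mod_cast hT.card_pos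
  rw [div_self hT0.ne', le_div_iff₀ hT0, one_mul] at h1
  exact_mod_cast h1

end Bez

open Bez in
theorem bezout_bound (k : ℕ) : ∃ B : ℕ, ∀ f g : MvPolynomial (Fin 2) ℝ,
    Irreducible f → Irreducible g → ¬ Associated f g → f.totalDegree ≤ k → g.totalDegree ≤ k →
    ∀ S : Finset (ℝ × ℝ), (∀ p ∈ S, eval ![p.1, p.2] f = 0 ∧ eval ![p.1, p.2] g = 0) →
      S.card ≤ B := by
  classical
  refine ⟨k * (2 * k * k), ?_⟩
  intro f g hf hg hfg hfk hgk S hS
  set P := finSuccEquiv ℝ 1 f with hP
  set Q := finSuccEquiv ℝ 1 g with hQ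
  have hPQ : ¬ Associated P Q := fun h => hfg (assoc_of_F h)
  have hne : ∀ b : ℝ, ¬ (Polynomial.map (eval ![b]) P = 0 ∧ Polynomial.map (eval ![b]) Q = 0) := by
    rintro b ⟨h1, h2⟩
    exact hfg ((assoc_line f hf b h1).symm.trans (assoc_line g hg b h2))
  have hr0 := res_ne_zero P Q (irr_F hf) (irr_F hg) hPQ
  -- fibres
  have hfib : ∀ b ∈ S.image Prod.snd, (S.filter fun p => p.2 = b).card ≤ k := by
    intro b _
    have key : ∀ h : MvPolynomial (Fin 2) ℝ, h.totalDegree ≤ k →
        Polynomial.map (eval ![b]) (finSuccEquiv ℝ 1 h) ≠ 0 →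
        (∀ p ∈ S, eval ![p.1, p.2] h = 0) → (S.filter fun p => p.2 = b).card ≤ k := by
      intro h hhk hh0 hhS
      have h1 : (S.filter fun p => p.2 = b).card =
          ((S.filter fun p => p.2 = b).image Prod.fst).card := by
        rw [Finset.card_image_of_injOn]
        rintro ⟨a, b'⟩ h1 ⟨c, d⟩ h2 h3
        simp only [Finset.coe_filter, Set.mem_ofPred_eq] at h1 h2
        ext
        · exact h3
        · simp only; rw [h1.2, h2.2]
      rw [h1]
      have h2 : (S.filter fun p => p.2 = b).image Prod.fst ⊆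
          (Polynomial.map (eval ![b]) (finSuccEquiv ℝ 1 h)).roots.toFinset := by
        intro a ha
        obtain ⟨p, hp, rfl⟩ := Finset.mem_image.1 ha
        rw [Finset.mem_filter] at hp
        rw [Multiset.mem_toFinset, Polynomial.mem_roots hh0, Polynomial.IsRoot.def, ← eval_F]
        have := hhS p hp.1
        rwa [hp.2] at this
      calc _ ≤ _ := Finset.card_le_card h2
        _ ≤ _ := Multiset.toFinset_card_le _
        _ ≤ (Polynomial.map (eval ![b]) (finSuccEquiv ℝ 1 h)).natDegree := Polynomial.card_roots' _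
        _ ≤ (finSuccEquiv ℝ 1 h).natDegree := Polynomial.natDegree_map_le
        _ ≤ k := natDeg_F h k hhk
    by_cases h1 : Polynomial.map (eval ![b]) P = 0
    · exact key g hgk (fun h2 => hne b ⟨h1, h2⟩) fun p hp => (hS p hp).2
    · exact key f hfk h1 fun p hp => (hS p hp).1
  have hcard : S.card ≤ k * (S.image Prod.snd).card :=
    Finset.card_le_mul_card_image_of_maps_to (fun p hp => Finset.mem_image_of_mem _ hp) k hfib
  have hT : (S.image Prod.snd).card ≤ 2 * k * k := by
    by_cases hdeg : P.natDegree ≠ 0 ∨ Q.natDegree ≠ 0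
    · refine (root_count _ hr0 (S.image Prod.snd) ?_).trans (tdeg_res f g k hfk hgk)
      intro b hb
      obtain ⟨p, hp, rfl⟩ := Finset.mem_image.1 hb
      obtain ⟨u, v, -, -, huv⟩ :=
        Polynomial.exists_mul_add_mul_eq_C_resultant P Q le_rfl le_rfl hdeg
      have h1 := congrArg (fun W => Polynomial.eval p.1 (Polynomial.map (eval ![p.2]) W)) huv
      simp only [Polynomial.map_add, Polynomial.map_mul, Polynomial.eval_add, Polynomial.eval_mul,
        Polynomial.map_C, Polynomial.eval_C] at h1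
      rw [hP, hQ, ← eval_F, ← eval_F, (hS p hp).1, (hS p hp).2] at h1
      simpa using h1.symm
    · push Not at hdeg
      have hS0 : S = ∅ := by
        rw [Finset.eq_empty_iff_forall_notMem]
        intro p hp
        obtain ⟨c, hc⟩ := Polynomial.natDegree_eq_zero.1 hdeg.1
        obtain ⟨d, hd⟩ := Polynomial.natDegree_eq_zero.1 hdeg.2
        apply hne p.2
        have h1 := (hS p hp).1
        have h2 := (hS p hp).2
        rw [eval_F, ← hP, ← hc] at h1
        rw [eval_F, ← hQ, ← hd] at h2
        simp only [Polynomial.map_C, Polynomial.eval_C] at h1 h2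
        rw [← hc, ← hd]
        simp only [Polynomial.map_C, h1, h2, map_zero, and_self]
      rw [hS0]; simp
  calc S.card ≤ k * (S.image Prod.snd).card := hcard
    _ ≤ k * (2 * k * k) := Nat.mul_le_mul_left _ hT

end Pool.Agent.W_MP_96b415_co
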