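import Pool.Agent.W_MP_96b415_co.Noether
import Pool.Agent.W_MP_96b415_co.Avoid

/-! Chang's specialization lemma, by an ultraproduct argument. -/

set_option autoImplicit false

namespace Pool.Agent.W_MP_96b415_co

open MvPolynomial Filter

theorem eval_map_comm {R S σ : Type} [CommRing R] [CommRing S] (f : R →+* S) (g : σ → R)
    (p : MvPolynomial σ R) :
    eval (fun i => f (g i)) (MvPolynomial.map f p) = f (eval g p) := by
  rw [eval_map]
  have := map_eval₂Hom (RingHom.id R) g f p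
  rw [RingHom.comp_id] at this
  exact this.symm

/-- Specialization to points algebraic over a subring `O` of an algebraically closed field. -/
theorem exists_spec_alg (E : Type) [Field E] [IsAlgClosed E] (O : Subring E) (ι : Type) [Fintype ι]
    (α : ι → E) :
    ∃ (s : ℕ) (Γ : MvPolynomial ι (MvPolynomial (Fin s) E)),
      (∀ x : ι → O, ∑ i, (x i : E) * α i ≠ 0 →
        eval (fun i => (C (x i : E) : MvPolynomial (Fin s) E)) Γ ≠ 0) ∧
      (∀ c : Fin s → O, ∃ β : ι → E, (∀ i, IsAlgebraic O (β i)) ∧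
        (∀ x : ι → O, eval (fun i => (c i : E))
          (eval (fun i => (C (x i : E) : MvPolynomial (Fin s) E)) Γ) ≠ 0 →
          ∑ i, (x i : E) * β i ≠ 0) ∧
        (∀ q : ι → ι → O, ∑ i, ∑ j, (q i j : E) * (α i * α j) = 0 →
          ∑ i, ∑ j, (q i j : E) * (β i * β j) = 0)) := by
  classical
  let _ : Algebra (FractionRing O) E := FractionRing.liftAlgebra O E
  have _ : IsScalarTower O (FractionRing O) E := FractionRing.isScalarTower_liftAlgebra O E
  let k := algebraicClosure (FractionRing O) E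
  have _ : IsAlgClosed k := IsAlgClosure.isAlgClosed (FractionRing O)
  have hOk : ∀ x : O, (x : E) ∈ k := by
    intro x
    have h1 : (x : E) = algebraMap (FractionRing O) E (algebraMap O (FractionRing O) x) := by
      rw [← IsScalarTower.algebraMap_apply]; rfl
    rw [h1]
    exact k.algebraMap_mem _
  let xk : O → k := fun x => ⟨x, hOk x⟩
  have hxk : ∀ x : O, algebraMap k E (xk x) = x := fun _ => rfl
  let R := Algebra.adjoin k (Set.range α)
  have _ : Algebra.FiniteType k R := by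
    apply Algebra.FiniteType.adjoin_of_finite
    exact Set.finite_range _
  let A : ι → R := fun i => ⟨α i, Algebra.subset_adjoin ⟨i, rfl⟩⟩
  have hA : ∀ i, algebraMap R E (A i) = α i := fun _ => rfl
  have hRk : ∀ x : O, algebraMap R E (algebraMap k R (xk x)) = x := fun _ => rfl
  obtain ⟨s, Γ, hΓ1, hΓ2⟩ := exists_avoid_poly k R ι A
  have hinj : Function.Injective (algebraMap k E) := (algebraMap k E).injective
  have hinjR : Function.Injective (algebraMap R E) := Subtype.val_injective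
  -- evaluation commutes with base change
  have hev1 : ∀ x : ι → O, eval (fun i => (C (x i : E) : MvPolynomial (Fin s) E))
      (MvPolynomial.map (MvPolynomial.map (algebraMap k E)) Γ) =
      MvPolynomial.map (algebraMap k E)
        (eval (fun i => (C (xk (x i)) : MvPolynomial (Fin s) k)) Γ) := by
    intro x
    rw [← eval_map_comm]
    congr 2
    funext i
    rw [map_C, hxk]
  refine ⟨s, MvPolynomial.map (MvPolynomial.map (algebraMap k E)) Γ, ?_, ?_⟩
  · intro x hx
    have h1 : ∑ i, algebraMap k R (xk (x i)) * A i ≠ 0 := by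
      intro h
      apply hx
      have h2 := congrArg (algebraMap R E) h
      rw [map_sum, map_zero] at h2
      exact h2
    have h3 := hΓ1 (fun i => xk (x i)) h1
    rw [hev1]
    intro h
    apply h3
    apply MvPolynomial.map_injective _ hinj
    rw [h, map_zero]
  · intro c
    obtain ⟨φ, hφ⟩ := hΓ2 (fun i => xk (c i))
    refine ⟨fun i => algebraMap k E (φ (A i)), ?_, ?_, ?_⟩
    · intro i
      rw [IsFractionRing.isAlgebraic_iff O (FractionRing O) E]
      exact mem_algebraicClosure_iff.1 (φ (A i)).2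
    · intro x hx
      rw [hev1] at hx
      have h1 : eval (fun i => (c i : E)) (MvPolynomial.map (algebraMap k E)
        (eval (fun i => (C (xk (x i)) : MvPolynomial (Fin s) k)) Γ)) =
          algebraMap k E (eval (fun i => xk (c i))
            (eval (fun i => (C (xk (x i)) : MvPolynomial (Fin s) k)) Γ)) :=
        eval_map_comm (algebraMap k E) (fun i => xk (c i)) _
      rw [h1] at hx
      have h2 := hφ (fun i => xk (x i)) (fun h => hx (by rw [h, map_zero]))
      intro h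
      apply h2
      apply hinj
      rw [map_zero, ← h, map_sum, map_sum]
      refine Finset.sum_congr rfl fun i _ => ?_
      rw [map_mul, map_mul, AlgHom.commutes]
      rfl
    · intro q hq
      have h1 : ∑ i, ∑ j, algebraMap k R (xk (q i j)) * (A i * A j) = 0 := by
        apply hinjR
        rw [map_zero, ← hq, map_sum]
        refine Finset.sum_congr rfl fun i _ => ?_
        rw [map_sum]
        rfl
      have h2 := congrArg φ h1
      rw [map_zero, map_sum] at h2
      have h3 := congrArg (algebraMap k E) h2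
      rw [map_zero, map_sum] at h3
      rw [← h3]
      refine Finset.sum_congr rfl fun i _ => ?_
      rw [map_sum, map_sum]
      refine Finset.sum_congr rfl fun j _ => ?_
      rw [map_mul, map_mul, map_mul, map_mul, AlgHom.commutes]
      rfl

theorem not_all_of_germ_ne_zero {f : ℕ → ℂ} (h : starMap f ≠ 0) :
    ∀ᶠ j in (hyperfilter ℕ : Filter ℕ), f j ≠ 0 := by
  by_contra hc
  apply h
  rw [starMap_eq_zero_iff]
  have h1 := Ultrafilter.eventually_not.2 hc
  exact h1.mono fun j hj => not_not.1 hj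

/-- the element of the ultrapower given by a sequence of integers -/
noncomputable def intStar (x : ℕ → ℤ) : StarC := starMap (fun j => ((x j : ℤ) : ℂ))

/-- polynomially bounded nonstandard integers -/
def boundedInts (N : ℕ → ℕ) (hN : ∀ j, 2 ≤ N j) : Subring StarC where
  carrier := {z | ∃ (x : ℕ → ℤ) (κ : ℕ), (∀ j, |x j| ≤ ((N j : ℕ) : ℤ) ^ κ) ∧ z = intStar x}
  zero_mem' := ⟨fun _ => 0, 0, fun j => by simp, by
    unfold intStar
    rw [← map_zero starMap]; congr 1; funext j; simp⟩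
  one_mem' := ⟨fun _ => 1, 0, fun j => by simp, by
    unfold intStar
    rw [← map_one starMap]; congr 1; funext j; simp⟩
  add_mem' := by
    rintro _ _ ⟨x, κ, hx, rfl⟩ ⟨y, κ', hy, rfl⟩
    refine ⟨fun j => x j + y j, κ + κ' + 1, fun j => ?_, ?_⟩
    · have h2 : (2 : ℤ) ≤ (N j : ℤ) := by exact_mod_cast hN j
      have h1 : (1 : ℤ) ≤ (N j : ℤ) := by linarith
      have e1 : ((N j : ℕ) : ℤ) ^ κ ≤ ((N j : ℕ) : ℤ) ^ (κ + κ') :=
        pow_le_pow_right₀ h1 (by omega)
      have e2 : ((N j : ℕ) : ℤ) ^ κ' ≤ ((N j : ℕ) : ℤ) ^ (κ + κ') :=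
        pow_le_pow_right₀ h1 (by omega)
      calc |x j + y j| ≤ |x j| + |y j| := abs_add_le _ _
        _ ≤ ((N j : ℕ) : ℤ) ^ (κ + κ') * 2 := by linarith [hx j, hy j]
        _ ≤ ((N j : ℕ) : ℤ) ^ (κ + κ') * (N j : ℤ) := by gcongr
        _ = ((N j : ℕ) : ℤ) ^ (κ + κ' + 1) := by rw [pow_succ]
    · unfold intStar
      rw [← map_add]; congr 1; funext j; simp
  mul_mem' := by
    rintro _ _ ⟨x, κ, hx, rfl⟩ ⟨y, κ', hy, rfl⟩
    refine ⟨fun j => x j * y j, κ + κ', fun j => ?_, ?_⟩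
    · rw [abs_mul, pow_add]
      exact mul_le_mul (hx j) (hy j) (abs_nonneg _) (by positivity)
    · unfold intStar
      rw [← map_mul]; congr 1; funext j; simp
  neg_mem' := by
    rintro _ ⟨x, κ, hx, rfl⟩
    refine ⟨fun j => - x j, κ, fun j => ?_, ?_⟩
    · rw [abs_neg]; exact hx j
    · unfold intStar
      rw [← map_neg]; congr 1; funext j; simp

/-- Algebraic elements over the bounded nonstandard integers are tame at almost all indices. -/
theorem tame_of_algebraic (N : ℕ → ℕ) (hN : ∀ j, 2 ≤ N j) (b : ℕ → ℂ)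
    (h : IsAlgebraic (boundedInts N hN) (starMap b)) :
    ∃ D : ℕ, ∀ᶠ j in (hyperfilter ℕ : Filter ℕ), Tame D ((N j : ℝ) ^ D) (b j) := by
  classical
  obtain ⟨p, hp, hpb⟩ := h
  choose x κ hx hxp using fun n : ℕ => (p.coeff n).2
  set d := p.natDegree with hd
  set K : ℕ := (Finset.range (d + 1)).sup κ with hK
  refine ⟨max d K, ?_⟩
  -- the polynomials
  let P : ℕ → Polynomial ℤ := fun j => ∑ n ∈ Finset.range (d + 1), Polynomial.monomial n (x n j)
  have hcoeff : ∀ j n, (P j).coeff n = if n < d + 1 then x n j else 0 := by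
    intro j n
    simp only [P, Polynomial.finsetSum_coeff, Polynomial.coeff_monomial]
    rw [Finset.sum_ite_eq' (Finset.range (d + 1)) n]
    simp
  have hroot : ∀ᶠ j in (hyperfilter ℕ : Filter ℕ), Polynomial.aeval (b j) (P j) = 0 := by
    rw [← starMap_eq_zero_iff, ← hpb, Polynomial.aeval_eq_sum_range]
    have : (fun j => Polynomial.aeval (b j) (P j)) =
        ∑ n ∈ Finset.range (d + 1), (fun j => ((x n j : ℤ) : ℂ)) * b ^ n := by
      funext j
      simp only [P, map_sum, Polynomial.aeval_monomial, Finset.sum_apply, Pi.mul_apply, Pi.pow_apply]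
      rfl
    rw [this, map_sum]
    refine Finset.sum_congr rfl fun n _ => ?_
    rw [map_mul, map_pow, Algebra.smul_def]
    congr 1
    exact (hxp n).symm
  have hlead : ∀ᶠ j in (hyperfilter ℕ : Filter ℕ), x d j ≠ 0 := by
    have h1 : starMap (fun j => ((x d j : ℤ) : ℂ)) ≠ 0 := by
      have h2 : p.coeff d ≠ 0 := by
        rw [hd]
        exact Polynomial.leadingCoeff_ne_zero.2 hp
      intro h3
      apply h2
      apply Subtype.ext
      rw [hxp d]
      exact h3
    exact (not_all_of_germ_ne_zero h1).mono fun j hj h => hj (by rw [h]; simp)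
  filter_upwards [hroot, hlead] with j h1 h2
  have hN1 : (1 : ℝ) ≤ N j := by
    have := hN j
    exact_mod_cast (show 1 ≤ N j by omega)
  refine ⟨P j, ?_, ?_, ?_, h1⟩
  · intro h0
    apply h2
    have := hcoeff j d
    rw [h0] at this
    simpa using this.symm
  · refine le_trans ?_ (le_max_left _ _)
    rw [Polynomial.natDegree_le_iff_coeff_eq_zero]
    intro n hn
    rw [hcoeff, if_neg (by omega)]
  · intro n
    rw [hcoeff]
    split_ifs with hn
    · have e1 : |((x n j : ℤ) : ℝ)| ≤ (N j : ℝ) ^ κ n := by exact_mod_cast hx n j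
      refine e1.trans (pow_le_pow_right₀ hN1 ?_)
      exact (Finset.le_sup (f := κ) (Finset.mem_range.2 hn)).trans (le_max_right _ _)
    · simp only [Int.cast_zero, abs_zero]
      positivity

theorem Tame.mono {D D' : ℕ} {H H' : ℝ} {z : ℂ} (h : Tame D H z) (hD : D ≤ D') (hH : H ≤ H') :
    Tame D' H' z := by
  obtain ⟨p, h1, h2, h3, h4⟩ := h
  exact ⟨p, h1, h2.trans hD, fun j => (h3 j).trans hH, h4⟩

theorem exists_tame_spec (ι : Type) [Fintype ι] (κ : ℕ) :
    ∃ (D : ℕ), ∀ N : ℕ, D ≤ N → ∀ a : ι → ℂ, ∃ b : ι → ℂ,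
      (∀ i, Tame D ((N : ℝ) ^ D) (b i)) ∧
      (∀ x : ι → ℤ, (∀ i, |x i| ≤ (N : ℤ) ^ κ) → ∑ i, ((x i : ℤ) : ℂ) * b i = 0 →
        ∑ i, ((x i : ℤ) : ℂ) * a i = 0) ∧
      (∀ q : ι → ι → ℤ, (∀ i j, |q i j| ≤ (N : ℤ) ^ κ) →
        ∑ i, ∑ j, ((q i j : ℤ) : ℂ) * (a i * a j) = 0 →
        ∑ i, ∑ j, ((q i j : ℤ) : ℂ) * (b i * b j) = 0) := by
  classical
  by_contra hcon
  -- a bad sequence
  have hcon' : ∀ j : ℕ, ∃ (N : ℕ) (a : ι → ℂ), j + 2 ≤ N ∧ ∀ b : ι → ℂ,
      ¬ ((∀ i, Tame (j + 2) ((N : ℝ) ^ (j + 2)) (b i)) ∧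
      (∀ x : ι → ℤ, (∀ i, |x i| ≤ (N : ℤ) ^ κ) → ∑ i, ((x i : ℤ) : ℂ) * b i = 0 →
        ∑ i, ((x i : ℤ) : ℂ) * a i = 0) ∧
      (∀ q : ι → ι → ℤ, (∀ i j, |q i j| ≤ (N : ℤ) ^ κ) →
        ∑ i, ∑ j, ((q i j : ℤ) : ℂ) * (a i * a j) = 0 →
        ∑ i, ∑ j, ((q i j : ℤ) : ℂ) * (b i * b j) = 0)) := by
    intro j
    by_contra h
    apply hcon
    refine ⟨j + 2, fun N hN a => ?_⟩
    by_contra h'
    exact h ⟨N, a, hN, fun b hb => h' ⟨b, hb⟩⟩
  choose N a hNj hbad using hcon'
  have hN2 : ∀ j, 2 ≤ N j := fun j => by have := hNj j; omega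
  let O := boundedInts N hN2
  obtain ⟨s, Γ, hΓ1, hΓ2⟩ := exists_spec_alg StarC O ι (fun i => starMap (fun j => a j i))
  obtain ⟨κ', c, hc, hcΓ⟩ := exists_internal_point ι s Γ N hN2 κ
  -- c as elements of O
  let cO : Fin s → O := fun i => ⟨intStar (fun j => ((c j i : ℕ) : ℤ)), fun j => ((c j i : ℕ) : ℤ),
    κ', fun j => by
      change |((c j i : ℕ) : ℤ)| ≤ ((N j : ℕ) : ℤ) ^ κ'
      rw [abs_of_nonneg (by positivity)]
      exact_mod_cast hc j i, rfl⟩
  have hcO : ∀ i, ((cO i : O) : StarC) = ((fun j => ((c j i : ℕ) : ℂ)) : StarC) := by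
    intro i
    change starMap (fun j => (((c j i : ℕ) : ℤ) : ℂ)) = starMap (fun j => ((c j i : ℕ) : ℂ))
    congr 1
  obtain ⟨β, hβalg, hβlin, hβquad⟩ := hΓ2 cO
  choose b' hb' using fun i => starMap_surjective (β i)
  -- tame
  have htame : ∀ i, ∃ D : ℕ, ∀ᶠ j in (hyperfilter ℕ : Filter ℕ), Tame D ((N j : ℝ) ^ D) (b' i j) := by
    intro i
    apply tame_of_algebraic N hN2
    rw [hb' i]
    exact hβalg i
  choose D hD using htame
  set D0 : ℕ := Finset.univ.sup D with hD0
  have hbig : ∀ᶠ j in (hyperfilter ℕ : Filter ℕ), D0 ≤ j :=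
    (eventually_ge_atTop D0).filter_mono Nat.hyperfilter_le_atTop
  -- bounded integers
  let mk : (ℕ → ℤ) → (κ0 : ℕ) → Prop := fun x κ0 => ∀ j, |x j| ≤ ((N j : ℕ) : ℤ) ^ κ0
  have hlin : ∀ᶠ j in (hyperfilter ℕ : Filter ℕ), ∀ x : ι → ℤ, (∀ i, |x i| ≤ (N j : ℤ) ^ κ) →
      ∑ i, ((x i : ℤ) : ℂ) * b' i j = 0 → ∑ i, ((x i : ℤ) : ℂ) * a j i = 0 := by
    by_contra h
    have h1 := Ultrafilter.eventually_not.2 h
    have h2 : ∀ j, ∃ x : ι → ℤ, (∀ i, |x i| ≤ (N j : ℤ) ^ κ) ∧
        ((¬ ∀ x : ι → ℤ, (∀ i, |x i| ≤ (N j : ℤ) ^ κ) →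
          ∑ i, ((x i : ℤ) : ℂ) * b' i j = 0 → ∑ i, ((x i : ℤ) : ℂ) * a j i = 0) →
          ∑ i, ((x i : ℤ) : ℂ) * b' i j = 0 ∧ ∑ i, ((x i : ℤ) : ℂ) * a j i ≠ 0) := by
      intro j
      by_cases hj : ∀ x : ι → ℤ, (∀ i, |x i| ≤ (N j : ℤ) ^ κ) →
          ∑ i, ((x i : ℤ) : ℂ) * b' i j = 0 → ∑ i, ((x i : ℤ) : ℂ) * a j i = 0
      · exact ⟨fun _ => 0, fun i => by simp, fun h => absurd hj h⟩
      · have hj' := hj
        push Not at hj'
        obtain ⟨x, hx1, hx2, hx3⟩ := hj'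
        exact ⟨x, hx1, fun _ => ⟨hx2, hx3⟩⟩
    choose x hx1 hx2 using h2
    let xO : ι → O := fun i => ⟨intStar (fun j => x j i), fun j => x j i, κ, fun j => hx1 j i, rfl⟩
    have hxO : ∀ i, ((xO i : O) : StarC) = starMap (fun j => ((x j i : ℤ) : ℂ)) := fun _ => rfl
    have e1 : ∑ i, ((xO i : O) : StarC) * starMap (fun j => a j i) =
        starMap (fun j => ∑ i, ((x j i : ℤ) : ℂ) * a j i) := by
      have : (fun j => ∑ i, ((x j i : ℤ) : ℂ) * a j i) =
          ∑ i, (fun j => ((x j i : ℤ) : ℂ)) * (fun j => a j i) := by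
        funext j; simp [Finset.sum_apply]
      rw [this, map_sum]
      refine Finset.sum_congr rfl fun i _ => ?_
      rw [map_mul]
      rfl
    have e2 : ∑ i, ((xO i : O) : StarC) * β i =
        starMap (fun j => ∑ i, ((x j i : ℤ) : ℂ) * b' i j) := by
      have : (fun j => ∑ i, ((x j i : ℤ) : ℂ) * b' i j) =
          ∑ i, (fun j => ((x j i : ℤ) : ℂ)) * (fun j => b' i j) := by
        funext j; simp [Finset.sum_apply]
      rw [this, map_sum]
      refine Finset.sum_congr rfl fun i _ => ?_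
      rw [map_mul]
      congr 1
      exact (hb' i).symm
    have n1 : ∑ i, ((xO i : O) : StarC) * starMap (fun j => a j i) ≠ 0 := by
      rw [e1]
      intro h0
      rw [starMap_eq_zero_iff] at h0
      obtain ⟨j, hj1, hj2⟩ := (h0.and h1).exists
      exact (hx2 j hj2).2 hj1
    have n2 := hΓ1 xO n1
    have n3 := hcΓ x hx1 n2
    have n4 := hβlin xO (by
      simp only [hcO]
      exact n3)
    rw [e2] at n4
    apply n4
    rw [starMap_eq_zero_iff]
    exact h1.mono fun j hj => (hx2 j hj).1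
  have hquad : ∀ᶠ j in (hyperfilter ℕ : Filter ℕ), ∀ q : ι → ι → ℤ,
      (∀ i i', |q i i'| ≤ (N j : ℤ) ^ κ) →
      ∑ i, ∑ i', ((q i i' : ℤ) : ℂ) * (a j i * a j i') = 0 →
      ∑ i, ∑ i', ((q i i' : ℤ) : ℂ) * (b' i j * b' i' j) = 0 := by
    by_contra h
    have h1 := Ultrafilter.eventually_not.2 h
    have h2 : ∀ j, ∃ q : ι → ι → ℤ, (∀ i i', |q i i'| ≤ (N j : ℤ) ^ κ) ∧
        ((¬ ∀ q : ι → ι → ℤ, (∀ i i', |q i i'| ≤ (N j : ℤ) ^ κ) →
          ∑ i, ∑ i', ((q i i' : ℤ) : ℂ) * (a j i * a j i') = 0 →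
          ∑ i, ∑ i', ((q i i' : ℤ) : ℂ) * (b' i j * b' i' j) = 0) →
          ∑ i, ∑ i', ((q i i' : ℤ) : ℂ) * (a j i * a j i') = 0 ∧
          ∑ i, ∑ i', ((q i i' : ℤ) : ℂ) * (b' i j * b' i' j) ≠ 0) := by
      intro j
      by_cases hj : ∀ q : ι → ι → ℤ, (∀ i i', |q i i'| ≤ (N j : ℤ) ^ κ) →
          ∑ i, ∑ i', ((q i i' : ℤ) : ℂ) * (a j i * a j i') = 0 →
          ∑ i, ∑ i', ((q i i' : ℤ) : ℂ) * (b' i j * b' i' j) = 0
      · exact ⟨fun _ _ => 0, fun i i' => by simp, fun h => absurd hj h⟩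
      · have hj' := hj
        push Not at hj'
        obtain ⟨x, hx1, hx2, hx3⟩ := hj'
        exact ⟨x, hx1, fun _ => ⟨hx2, hx3⟩⟩
    choose q hq1 hq2 using h2
    let qO : ι → ι → O := fun i i' =>
      ⟨intStar (fun j => q j i i'), fun j => q j i i', κ, fun j => hq1 j i i', rfl⟩
    have e1 : ∑ i, ∑ i', ((qO i i' : O) : StarC) *
        (starMap (fun j => a j i) * starMap (fun j => a j i')) =
        starMap (fun j => ∑ i, ∑ i', ((q j i i' : ℤ) : ℂ) * (a j i * a j i')) := by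
      have : (fun j => ∑ i, ∑ i', ((q j i i' : ℤ) : ℂ) * (a j i * a j i')) =
          ∑ i, ∑ i', (fun j => ((q j i i' : ℤ) : ℂ)) * ((fun j => a j i) * (fun j => a j i')) := by
        funext j; simp [Finset.sum_apply]
      rw [this, map_sum]
      refine Finset.sum_congr rfl fun i _ => ?_
      rw [map_sum]
      refine Finset.sum_congr rfl fun i' _ => ?_
      rw [map_mul, map_mul]
      rfl
    have e2 : ∑ i, ∑ i', ((qO i i' : O) : StarC) * (β i * β i') =
        starMap (fun j => ∑ i, ∑ i', ((q j i i' : ℤ) : ℂ) * (b' i j * b' i' j)) := by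
      have : (fun j => ∑ i, ∑ i', ((q j i i' : ℤ) : ℂ) * (b' i j * b' i' j)) =
          ∑ i, ∑ i', (fun j => ((q j i i' : ℤ) : ℂ)) * ((fun j => b' i j) * (fun j => b' i' j)) := by
        funext j; simp [Finset.sum_apply]
      rw [this, map_sum]
      refine Finset.sum_congr rfl fun i _ => ?_
      rw [map_sum]
      refine Finset.sum_congr rfl fun i' _ => ?_
      rw [map_mul, map_mul, ← hb' i, ← hb' i']
      rfl
    have z1 : ∑ i, ∑ i', ((qO i i' : O) : StarC) *
        (starMap (fun j => a j i) * starMap (fun j => a j i')) = 0 := by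
      rw [e1, starMap_eq_zero_iff]
      exact h1.mono fun j hj => (hq2 j hj).1
    have z2 := hβquad qO z1
    rw [e2, starMap_eq_zero_iff] at z2
    obtain ⟨j, hj1, hj2⟩ := (z2.and h1).exists
    exact (hq2 j hj2).2 hj1
  have hDall : ∀ᶠ j in (hyperfilter ℕ : Filter ℕ), ∀ i, Tame (D i) ((N j : ℝ) ^ (D i)) (b' i j) :=
    eventually_all.2 hD
  obtain ⟨j, hj1, hj2, hj3, hj4⟩ := (hbig.and (hDall.and (hlin.and hquad))).exists
  apply hbad j (fun i => b' i j)
  refine ⟨fun i => ?_, hj3, hj4⟩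
  have hDi : D i ≤ D0 := Finset.le_sup (Finset.mem_univ i)
  have hN1 : (1 : ℝ) ≤ N j := by
    have := hN2 j
    exact_mod_cast (show 1 ≤ N j by omega)
  exact (hj2 i).mono (by omega) (pow_le_pow_right₀ hN1 (by omega))

end Pool.Agent.W_MP_96b415_co
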