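import Pool.Agent.W_MP_96b415_co.TameDiv
import Pool.Agent.W_MP_96b415_co.Spec

/-! Chang's lemma: divisor bound in generalized arithmetic progressions. -/

set_option autoImplicit false

namespace Pool.Agent.W_MP_96b415_co

theorem gap_div_bound (ι : Type) [Fintype ι] (ε : ℝ) (hε : 0 < ε) :
    ∃ C : ℝ, 0 < C ∧ ∀ N : ℝ, 1 ≤ N → ∀ a : ι → ℂ, ∀ c : ℂ, c ≠ 0 → ∀ S : Finset ℂ,
      (∀ u ∈ S, u ∈ gap a N ∧ ∃ v ∈ gap a N, u * v = c) →
      (S.card : ℝ) ≤ C * N ^ ε := by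
  classical
  obtain ⟨D, hD⟩ := exists_tame_spec ι 3
  obtain ⟨C1, hC1, htame⟩ := tame_div_bound ι D D ε hε
  -- trivial bound for small N
  set n0 : ℕ := D + 2 with hn0
  have htriv : ∀ N : ℝ, 1 ≤ N → N ≤ n0 → ∀ a : ι → ℂ, ∀ S : Finset ℂ, (∀ u ∈ S, u ∈ gap a N) →
      S.card ≤ (2 * n0 + 1) ^ (Fintype.card ι) := by
    intro N hN1 hN a S hS
    let box : Finset (ι → ℤ) := Fintype.piFinset fun _ => Finset.Icc (-(n0 : ℤ)) n0
    have hbox : box.card = (2 * n0 + 1) ^ (Fintype.card ι) := by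
      simp only [box, Fintype.card_piFinset, Int.card_Icc, Finset.prod_const, Finset.card_univ]
      congr 1
      omega
    rw [← hbox]
    refine (Finset.card_le_card (t := box.image fun x => ∑ i, ((x i : ℤ) : ℂ) * a i) ?_).trans
      Finset.card_image_le
    intro u hu
    obtain ⟨x, hx, rfl⟩ := hS u hu
    refine Finset.mem_image.2 ⟨x, ?_, rfl⟩
    rw [Fintype.mem_piFinset]
    intro i
    have h1 : |((x i : ℤ) : ℝ)| ≤ (n0 : ℝ) := (hx i).trans hN
    rw [Finset.mem_Icc, ← abs_le]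
    exact_mod_cast h1
  refine ⟨C1 * 2 ^ ε + (2 * n0 + 1) ^ (Fintype.card ι), by positivity, ?_⟩
  intro N hN a c hc S hS
  have hNε : (1 : ℝ) ≤ N ^ ε := Real.one_le_rpow hN hε.le
  rcases le_or_gt N n0 with hsmall | hlarge
  · have h1 := htriv N hN hsmall a S fun u hu => (hS u hu).1
    have h2 : (S.card : ℝ) ≤ (2 * n0 + 1) ^ (Fintype.card ι) := by exact_mod_cast h1
    have h3 : (0 : ℝ) ≤ C1 * 2 ^ ε := by positivity
    have h4 : (0 : ℝ) ≤ (2 * n0 + 1) ^ (Fintype.card ι) := by positivity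
    nlinarith
  -- large N
  set M : ℕ := ⌈N⌉₊ with hM
  have hNM : N ≤ M := Nat.le_ceil N
  have hMN : (M : ℝ) ≤ 2 * N := by
    have := Nat.ceil_lt_add_one (show (0 : ℝ) ≤ N by linarith)
    linarith
  have hn0M : (n0 : ℝ) ≤ M := hlarge.le.trans hNM
  have hn0M' : n0 ≤ M := by exact_mod_cast hn0M
  have hM2 : 2 ≤ M := by omega
  have hM2r : (2 : ℝ) ≤ M := by exact_mod_cast hM2
  obtain ⟨b, hbt, hlin, hquad⟩ := hD M (by omega) a
  rcases S.eq_empty_or_nonempty with rfl | ⟨u0, hu0⟩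
  · simp only [Finset.card_empty, Nat.cast_zero]; positivity
  -- choose coefficient vectors
  choose! X hX Y hY using fun u (hu : u ∈ S) => (show ∃ x : ι → ℤ, ((∀ i, |((x i : ℤ) : ℝ)| ≤ N) ∧
      u = ∑ i, ((x i : ℤ) : ℂ) * a i) ∧ ∃ y : ι → ℤ, ((∀ i, |((y i : ℤ) : ℝ)| ≤ N) ∧
      u * ∑ i, ((y i : ℤ) : ℂ) * a i = c) by
    obtain ⟨⟨x, hx, hux⟩, v, ⟨y, hy, hvy⟩, huv⟩ := hS u hu
    exact ⟨x, ⟨hx, hux⟩, y, hy, by rw [← hvy]; exact huv⟩)
  have hbd : ∀ z : ℤ, |((z : ℤ) : ℝ)| ≤ N → |z| ≤ (M : ℤ) := by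
    intro z hz
    have h1 : |((z : ℤ) : ℝ)| ≤ (M : ℝ) := hz.trans hNM
    exact_mod_cast h1
  have hpow : (M : ℤ) + M ≤ (M : ℤ) ^ 3 := by
    have : (2 : ℤ) ≤ M := by exact_mod_cast hM2
    nlinarith [mul_nonneg (sub_nonneg.2 this) (sub_nonneg.2 this)]
  have hpow2 : (M : ℤ) * M + M * M ≤ (M : ℤ) ^ 3 := by
    have : (2 : ℤ) ≤ M := by exact_mod_cast hM2
    nlinarith [mul_nonneg (show (0:ℤ) ≤ (M:ℤ) * M by positivity) (sub_nonneg.2 this)]
  have hpow1 : (M : ℤ) ≤ (M : ℤ) ^ 3 := by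
    have : (2 : ℤ) ≤ M := by exact_mod_cast hM2
    linarith
  -- the map
  let F : ℂ → ℂ := fun u => ∑ i, ((X u i : ℤ) : ℂ) * b i
  let G : ℂ → ℂ := fun u => ∑ i, ((Y u i : ℤ) : ℂ) * b i
  have hFinj : Set.InjOn F (S : Set ℂ) := by
    intro u hu v hv huv
    have h1 : ∑ i, (((X u i - X v i : ℤ)) : ℂ) * b i = 0 := by
      have : ∑ i, (((X u i - X v i : ℤ)) : ℂ) * b i = F u - F v := by
        simp only [F]
        rw [← Finset.sum_sub_distrib]
        refine Finset.sum_congr rfl fun i _ => ?_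
        push_cast; ring
      rw [this, huv, sub_self]
    have h2 := hlin (fun i => X u i - X v i) (fun i => by
      have e1 := hbd _ ((hX u hu).1 i)
      have e2 := hbd _ ((hX v hv).1 i)
      calc |X u i - X v i| ≤ |X u i| + |X v i| := abs_sub _ _
        _ ≤ (M : ℤ) ^ 3 := by linarith) h1
    have h3 : u - v = 0 := by
      rw [← h2]
      conv_lhs => rw [(hX u hu).2, (hX v hv).2]
      rw [← Finset.sum_sub_distrib]
      refine Finset.sum_congr rfl fun i _ => ?_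
      push_cast; ring
    exact sub_eq_zero.1 h3
  have hFne : ∀ u ∈ S, F u ≠ 0 := by
    intro u hu h
    have h1 := hlin (fun i => X u i) (fun i => (hbd _ ((hX u hu).1 i)).trans hpow1) h
    rw [← (hX u hu).2] at h1
    have h2 := (hY u hu).2
    rw [h1, zero_mul] at h2
    exact hc h2.symm
  have hGne : ∀ u ∈ S, G u ≠ 0 := by
    intro u hu h
    have h1 := hlin (fun i => Y u i) (fun i => (hbd _ ((hY u hu).1 i)).trans hpow1) h
    have h2 := (hY u hu).2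
    rw [h1, mul_zero] at h2
    exact hc h2.symm
  have hprod : ∀ u ∈ S, F u * G u = F u0 * G u0 := by
    intro u hu
    have h0 : ∑ i, ∑ j, (((X u i * Y u j - X u0 i * Y u0 j : ℤ)) : ℂ) * (a i * a j) = 0 := by
      have e : ∑ i, ∑ j, (((X u i * Y u j - X u0 i * Y u0 j : ℤ)) : ℂ) * (a i * a j) =
          (∑ i, ((X u i : ℤ) : ℂ) * a i) * (∑ i, ((Y u i : ℤ) : ℂ) * a i) -
          (∑ i, ((X u0 i : ℤ) : ℂ) * a i) * (∑ i, ((Y u0 i : ℤ) : ℂ) * a i) := by
        rw [Finset.sum_mul_sum, Finset.sum_mul_sum, ← Finset.sum_sub_distrib]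
        refine Finset.sum_congr rfl fun i _ => ?_
        rw [← Finset.sum_sub_distrib]
        refine Finset.sum_congr rfl fun j _ => ?_
        push_cast; ring
      rw [e, ← (hX u hu).2, ← (hX u0 hu0).2, (hY u hu).2, (hY u0 hu0).2, sub_self]
    have h1 := hquad (fun i j => X u i * Y u j - X u0 i * Y u0 j) (fun i j => by
      have e1 := hbd _ ((hX u hu).1 i)
      have e2 := hbd _ ((hY u hu).1 j)
      have e3 := hbd _ ((hX u0 hu0).1 i)
      have e4 := hbd _ ((hY u0 hu0).1 j)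
      calc |X u i * Y u j - X u0 i * Y u0 j| ≤ |X u i * Y u j| + |X u0 i * Y u0 j| := abs_sub _ _
        _ = |X u i| * |Y u j| + |X u0 i| * |Y u0 j| := by rw [abs_mul, abs_mul]
        _ ≤ (M : ℤ) * M + M * M := by gcongr
        _ ≤ (M : ℤ) ^ 3 := hpow2) h0
    have e : ∑ i, ∑ j, (((X u i * Y u j - X u0 i * Y u0 j : ℤ)) : ℂ) * (b i * b j) =
        F u * G u - F u0 * G u0 := by
      simp only [F, G]
      rw [Finset.sum_mul_sum, Finset.sum_mul_sum, ← Finset.sum_sub_distrib]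
      refine Finset.sum_congr rfl fun i _ => ?_
      rw [← Finset.sum_sub_distrib]
      refine Finset.sum_congr rfl fun j _ => ?_
      push_cast; ring
    rw [e] at h1
    exact sub_eq_zero.1 h1
  have hfin := htame (M : ℝ) (by linarith) b hbt (F u0 * G u0) (mul_ne_zero (hFne u0 hu0) (hGne u0 hu0))
    (S.image F) (by
      intro z hz
      obtain ⟨u, hu, rfl⟩ := Finset.mem_image.1 hz
      exact ⟨⟨X u, fun i => ((hX u hu).1 i).trans hNM, rfl⟩, G u,
        ⟨Y u, fun i => ((hY u hu).1 i).trans hNM, rfl⟩, hprod u hu⟩)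
  rw [Finset.card_image_of_injOn hFinj] at hfin
  calc (S.card : ℝ) ≤ C1 * (M : ℝ) ^ ε := hfin
    _ ≤ C1 * (2 * N) ^ ε := by gcongr
    _ = C1 * 2 ^ ε * N ^ ε := by rw [Real.mul_rpow (by norm_num) (by linarith)]; ring
    _ ≤ (C1 * 2 ^ ε + (2 * n0 + 1) ^ (Fintype.card ι)) * N ^ ε := by
        apply mul_le_mul_of_nonneg_right _ (by linarith)
        have h4 : (0 : ℝ) ≤ (2 * n0 + 1) ^ (Fintype.card ι) := by positivity
        linarith

end Pool.Agent.W_MP_96b415_co
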