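import Mathlib

/-! Points on curves in sets with few distinct distances: definitions. -/

set_option autoImplicit false

namespace Pool.Agent.W_MP_96b415_co

/-- The generalized arithmetic progression `{∑ i, x i * a i : |x i| ≤ N}` in `ℂ`. -/
def gap {ι : Type} [Fintype ι] (a : ι → ℂ) (N : ℝ) : Set ℂ :=
  {z | ∃ x : ι → ℤ, (∀ i, |((x i : ℤ) : ℝ)| ≤ N) ∧ z = ∑ i, ((x i : ℤ) : ℂ) * a i}

/-- `z` is a root of a nonzero integer polynomial of degree at most `D` with coefficients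
bounded by `H`. -/
def Tame (D : ℕ) (H : ℝ) (z : ℂ) : Prop :=
  ∃ p : Polynomial ℤ, p ≠ 0 ∧ p.natDegree ≤ D ∧ (∀ j, |((p.coeff j : ℤ) : ℝ)| ≤ H) ∧
    Polynomial.aeval z p = 0

end Pool.Agent.W_MP_96b415_co
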