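import Pool.Agent.W_MP_96b415_co.Defs

/-! Divisor bound in number fields, uniform in the field of bounded degree. -/

set_option autoImplicit false

namespace Pool.Agent.W_MP_96b415_co

open NumberField

namespace NFDiv

/-- `e + 1 ≤ C 2 ^ (ε e)`. -/
theorem succ_le_const (ε : ℝ) (hε : 0 < ε) (e : ℕ) :
    ((e : ℝ) + 1) ≤ (1 + 1 / (ε * Real.log 2)) * (2 : ℝ) ^ (ε * e) := by
  have hl : 0 < Real.log 2 := Real.log_pos (by norm_num)
  have h1 : (1 : ℝ) ≤ (2 : ℝ) ^ (ε * e) :=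
    Real.one_le_rpow (by norm_num) (by positivity)
  have h2 : ε * e * Real.log 2 ≤ (2 : ℝ) ^ (ε * e) := by
    rw [Real.rpow_def_of_pos (by norm_num)]
    have := Real.add_one_le_exp (Real.log 2 * (ε * e))
    nlinarith
  have h3 : (e : ℝ) ≤ 1 / (ε * Real.log 2) * (2 : ℝ) ^ (ε * e) := by
    rw [div_mul_eq_mul_div, le_div_iff₀ (by positivity)]
    nlinarith
  linarith

theorem succ_le_large (ε : ℝ) (hε : 0 < ε) (e : ℕ) (N : ℝ) (hN : (2 : ℝ) ^ (1 / ε) ≤ N) :
    ((e : ℝ) + 1) ≤ N ^ (ε * e) := by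
  have h0 : (0 : ℝ) < (2 : ℝ) ^ (1 / ε) := by positivity
  have h1 : ((2 : ℝ) ^ (1 / ε)) ^ (ε * e) ≤ N ^ (ε * e) :=
    Real.rpow_le_rpow h0.le hN (by positivity)
  have h2 : ((2 : ℝ) ^ (1 / ε)) ^ (ε * e) = (2 : ℝ) ^ e := by
    rw [← Real.rpow_mul (by norm_num)]
    have : 1 / ε * (ε * e) = e := by field_simp
    rw [this, Real.rpow_natCast]
  rw [h2] at h1
  refine le_trans ?_ h1
  have h3 : e + 1 ≤ 2 ^ e := Nat.lt_two_pow_self
  exact_mod_cast h3

theorem two_le_absNorm {K : Type} [Field K] [NumberField K] (P : Ideal (𝓞 K)) (hP : Prime P) :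
    2 ≤ Ideal.absNorm P := by
  have h0 : Ideal.absNorm P ≠ 0 := by
    rw [Ne, Ideal.absNorm_eq_zero_iff]
    exact hP.ne_zero
  have h1 : Ideal.absNorm P ≠ 1 := by
    rw [Ne, Ideal.absNorm_eq_one_iff]
    exact (Ideal.isPrime_of_prime hP).ne_top
  omega

/-- The number of primes of norm at most `B`. -/
theorem card_small_primes {K : Type} [Field K] [NumberField K] (D B : ℕ)
    (hD : Module.finrank ℚ K ≤ D) (s : Finset (Ideal (𝓞 K)))
    (hs : ∀ P ∈ s, Prime P ∧ Ideal.absNorm P ≤ B) : s.card ≤ (B.factorial) ^ D := by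
  have h1 : ∏ P ∈ s, P ∣ Ideal.span {((B.factorial : ℕ) : 𝓞 K)} := by
    apply Finset.prod_primes_dvd
    · exact fun P hP => (hs P hP).1
    · intro P hP
      obtain ⟨hp, hB⟩ := hs P hP
      rw [Ideal.dvd_span_singleton]
      have h2 := Ideal.absNorm_mem P
      have h3 : Ideal.absNorm P ∣ B.factorial :=
        Nat.dvd_factorial (by have := two_le_absNorm P hp; omega) hB
      obtain ⟨k, hk⟩ := h3
      rw [hk, Nat.cast_mul]
      exact Ideal.mul_mem_right _ _ h2
  have h2 : Ideal.absNorm (∏ P ∈ s, P) ∣ (B.factorial) ^ Module.finrank ℤ (𝓞 K) := by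
    rw [← Ideal.absNorm_span_natCast]
    exact Ideal.absNorm_dvd_absNorm_of_le (Ideal.dvd_iff_le.1 h1)
  rw [RingOfIntegers.rank] at h2
  have h3 : 2 ^ s.card ≤ Ideal.absNorm (∏ P ∈ s, P) := by
    rw [map_prod]
    calc 2 ^ s.card = ∏ P ∈ s, 2 := by simp
      _ ≤ ∏ P ∈ s, Ideal.absNorm P :=
        Finset.prod_le_prod' fun P hP => two_le_absNorm P (hs P hP).1
  have h4 : Ideal.absNorm (∏ P ∈ s, P) ≤ (B.factorial) ^ Module.finrank ℚ K :=
    Nat.le_of_dvd (pow_pos (Nat.factorial_pos B) _) h2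
  have h5 : (B.factorial) ^ Module.finrank ℚ K ≤ (B.factorial) ^ D :=
    Nat.pow_le_pow_right (Nat.factorial_pos B) hD
  have h6 : s.card < 2 ^ s.card := Nat.lt_two_pow_self
  omega

/-- The divisor bound for ideals, uniform in the field. -/
theorem ideal_div_bound (D : ℕ) (ε : ℝ) (hε : 0 < ε) :
    ∃ C : ℝ, 1 ≤ C ∧ ∀ (K : Type) [Field K] [NumberField K], Module.finrank ℚ K ≤ D →
      ∀ I : Ideal (𝓞 K), I ≠ ⊥ → ∀ T : Finset (Ideal (𝓞 K)), (∀ J ∈ T, J ∣ I) →
        (T.card : ℝ) ≤ C * (Ideal.absNorm I : ℝ) ^ ε := by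
  classical
  set Cε : ℝ := 1 + 1 / (ε * Real.log 2) with hCε
  have hl : 0 < Real.log 2 := Real.log_pos (by norm_num)
  have hC1 : 1 ≤ Cε := by
    have : 0 < 1 / (ε * Real.log 2) := by positivity
    linarith
  set B : ℕ := ⌈(2 : ℝ) ^ (1 / ε)⌉₊ with hB
  refine ⟨Cε ^ ((B.factorial) ^ D), one_le_pow₀ hC1, ?_⟩
  intro K _ _ hD I hI T hT
  have hI0 : I ≠ 0 := hI
  set m := UniqueFactorizationMonoid.normalizedFactors I with hm
  -- injection into multisets
  have hcard : T.card ≤ (Finset.Iic m).card := by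
    apply Finset.card_le_card_of_injOn (fun J => UniqueFactorizationMonoid.normalizedFactors J)
    · intro J hJ
      have hJ' := hT J hJ
      have hJ0 : J ≠ 0 := ne_zero_of_dvd_ne_zero hI0 hJ'
      simp only [Finset.coe_Iic, Set.mem_Iic]
      exact (UniqueFactorizationMonoid.dvd_iff_normalizedFactors_le_normalizedFactors hJ0 hI0).1 hJ'
    · intro J hJ J' hJ' h
      have hJ0 : J ≠ 0 := ne_zero_of_dvd_ne_zero hI0 (hT J hJ)
      have hJ0' : J' ≠ 0 := ne_zero_of_dvd_ne_zero hI0 (hT J' hJ')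
      rw [← Ideal.prod_normalizedFactors_eq_self hJ0, ← Ideal.prod_normalizedFactors_eq_self hJ0']
      simp only at h
      rw [h]
  rw [Multiset.card_Iic] at hcard
  have hprime : ∀ P ∈ m.toFinset, Prime P := by
    intro P hP
    rw [Multiset.mem_toFinset] at hP
    exact UniqueFactorizationMonoid.prime_of_normalized_factor P hP
  have hnorm : (Ideal.absNorm I : ℝ) = ∏ P ∈ m.toFinset, (Ideal.absNorm P : ℝ) ^ (m.count P) := by
    have h1 : I = ∏ P ∈ m.toFinset, P ^ (m.count P) := by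
      conv_lhs => rw [← Ideal.prod_normalizedFactors_eq_self hI0]
      rw [Finset.prod_multiset_count]
    conv_lhs => rw [h1]
    rw [map_prod]
    push_cast
    refine Finset.prod_congr rfl fun P _ => ?_
    rw [map_pow]
    push_cast
    rfl
  set s1 := m.toFinset.filter (fun P => Ideal.absNorm P ≤ B) with hs1
  have hs1card : s1.card ≤ (B.factorial) ^ D := by
    apply card_small_primes D B hD
    intro P hP
    rw [hs1, Finset.mem_filter] at hP
    exact ⟨hprime P hP.1, hP.2⟩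
  have hterm : ∀ P ∈ m.toFinset, ((m.count P : ℝ) + 1) ≤
      (if Ideal.absNorm P ≤ B then Cε else 1) * (Ideal.absNorm P : ℝ) ^ (ε * (m.count P : ℝ)) := by
    intro P hP
    have h2 : (2 : ℝ) ≤ (Ideal.absNorm P : ℝ) := by
      exact_mod_cast two_le_absNorm P (hprime P hP)
    by_cases h : Ideal.absNorm P ≤ B
    · rw [if_pos h]
      refine (succ_le_const ε hε (m.count P)).trans ?_
      refine mul_le_mul_of_nonneg_left ?_ (by linarith)
      exact Real.rpow_le_rpow (by norm_num) h2 (by positivity)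
    · rw [if_neg h, one_mul]
      apply succ_le_large ε hε
      push Not at h
      have h3 : (B : ℝ) < (Ideal.absNorm P : ℝ) := by exact_mod_cast h
      exact (Nat.le_ceil _).trans h3.le
  have hcard' : (T.card : ℝ) ≤ ∏ P ∈ m.toFinset, ((m.count P : ℝ) + 1) := by
    exact_mod_cast hcard
  refine hcard'.trans ?_
  refine (Finset.prod_le_prod (fun P _ => by positivity) hterm).trans ?_
  rw [Finset.prod_mul_distrib]
  have hA : ∏ P ∈ m.toFinset, (if Ideal.absNorm P ≤ B then Cε else 1) = Cε ^ s1.card := by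
    rw [hs1, ← Finset.prod_filter]
    simp
  have hBp : ∏ P ∈ m.toFinset, (Ideal.absNorm P : ℝ) ^ (ε * (m.count P : ℝ))
      = (Ideal.absNorm I : ℝ) ^ ε := by
    rw [hnorm, ← Real.finsetProd_rpow _ _ (fun P _ => by positivity)]
    refine Finset.prod_congr rfl fun P _ => ?_
    rw [mul_comm, Real.rpow_mul (by positivity), Real.rpow_natCast]
  rw [hA, hBp]
  refine mul_le_mul_of_nonneg_right ?_ (by positivity)
  exact pow_le_pow_right₀ hC1 hs1card

/-- Finite set in `ℂ` containing all algebraic integers of degree at most `D` with all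
conjugates at most `3`. -/
theorem unit_set (D : ℕ) : ∃ U : Finset ℂ, ∀ (K : Type) [Field K] [NumberField K],
    Module.finrank ℚ K ≤ D → ∀ x : K, IsIntegral ℤ x → (∀ φ : K →+* ℂ, ‖φ x‖ ≤ 3) →
      ∀ φ : K →+* ℂ, φ x ∈ U := by
  classical
  let C : ℕ := 3 ^ D * 2 ^ D
  have hfin := Polynomial.bUnion_roots_finite (algebraMap ℤ ℂ) D (Set.finite_Icc (-C : ℤ) C)
  refine ⟨hfin.toFinset, ?_⟩
  intro K _ _ hD x hx hb φ
  rw [Set.Finite.mem_toFinset]
  simp_rw [Set.mem_iUnion]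
  have h_map_ℚ_minpoly := minpoly.isIntegrallyClosed_eq_field_fractions' ℚ hx
  refine ⟨minpoly ℤ x, ⟨?_, fun i => ?_⟩, ?_⟩
  · rw [← (minpoly.monic hx).natDegree_map (algebraMap ℤ ℚ), ← h_map_ℚ_minpoly]
    exact (minpoly.natDegree_le x).trans hD
  · rw [Set.mem_Icc, ← abs_le, ← @Int.cast_le ℝ]
    have h1 := NumberField.Embeddings.coeff_bdd_of_norm_le hb i
    have h2 : ‖(minpoly ℚ x).coeff i‖ = ((|(minpoly ℤ x).coeff i| : ℤ) : ℝ) := by
      rw [h_map_ℚ_minpoly, Polynomial.coeff_map, eq_intCast, Int.norm_cast_rat, Int.norm_eq_abs,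
        Int.cast_abs]
    rw [← h2]
    refine h1.trans ?_
    have h3 : (max (3:ℝ) 1) = 3 := by norm_num
    rw [h3]
    have h4 : (Module.finrank ℚ K).choose (Module.finrank ℚ K / 2) ≤ 2 ^ D := by
      refine (Nat.choose_le_two_pow _ _).trans ?_
      exact Nat.pow_le_pow_right (by norm_num) hD
    have h5 : (3:ℝ) ^ Module.finrank ℚ K ≤ 3 ^ D := pow_le_pow_right₀ (by norm_num) hD
    have h6 : (((Module.finrank ℚ K).choose (Module.finrank ℚ K / 2) : ℕ) : ℝ) ≤ 2 ^ D := by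
      exact_mod_cast h4
    have h7 : ((C : ℤ) : ℝ) = 3 ^ D * 2 ^ D := by simp [C]
    rw [h7]
    exact mul_le_mul h5 h6 (by positivity) (by positivity)
  · simp only [Finset.mem_coe, Multiset.mem_toFinset]
    rw [Polynomial.mem_roots ((minpoly.monic hx).map _).ne_zero, Polynomial.IsRoot.def,
      Polynomial.eval_map]
    have h1 : Polynomial.eval₂ (algebraMap ℤ ℂ) (φ x) (minpoly ℤ x)
        = φ (Polynomial.aeval x (minpoly ℤ x)) := by
      rw [Polynomial.aeval_def, Polynomial.hom_eval₂]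
      congr 1
      exact RingHom.ext_int _ _
    rw [h1, minpoly.aeval, map_zero]

/-- An algebraic integer as an element of the ring of integers. -/
def toInt {K : Type} [Field K] (a : K) (h : IsIntegral ℤ a) : 𝓞 K := ⟨a, h⟩

theorem coe_toInt {K : Type} [Field K] (a : K) (h : IsIntegral ℤ a) :
    algebraMap (𝓞 K) K (toInt a h) = a := rfl

theorem prod_norm_eq {K : Type} [Field K] [NumberField K] (a : K) :
    ∏ φ : K →+* ℂ, ‖φ a‖ = |((Algebra.norm ℚ a : ℚ) : ℝ)| := by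
  classical
  have h := (congr_arg (‖·‖) (Algebra.norm_eq_prod_embeddings ℚ ℂ a)).symm
  simp only [norm_prod] at h
  rw [← Fintype.prod_equiv (RingHom.equivRatAlgHom K ℂ) (fun f => ‖f a‖)
      (fun φ => ‖φ a‖) fun _ => by simp [RingHom.equivRatAlgHom_apply]] at h
  rw [h, eq_ratCast, ← Real.norm_eq_abs, ← Complex.norm_real, Complex.ofReal_ratCast]

/-- The product of the absolute values of the conjugates of a nonzero algebraic integer
is at least `1`. -/
theorem one_le_prod {K : Type} [Field K] [NumberField K] (a : K) (ha : a ≠ 0)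
    (hi : IsIntegral ℤ a) : 1 ≤ ∏ φ : K →+* ℂ, ‖φ a‖ := by
  rw [prod_norm_eq]
  have h0 : (toInt a hi) ≠ 0 := by
    intro h
    apply ha
    exact congrArg (algebraMap (𝓞 K) K) h
  have h1 : ((Algebra.norm ℤ (toInt a hi) : ℤ) : ℚ) = Algebra.norm ℚ a :=
    Algebra.coe_norm_int (toInt a hi)
  rw [← h1, Rat.cast_intCast, ← Int.cast_abs]
  have h2 : 1 ≤ |Algebra.norm ℤ (toInt a hi)| :=
    Int.one_le_abs (Algebra.norm_ne_zero_iff.mpr h0)
  exact_mod_cast h2

theorem absNorm_span_eq {K : Type} [Field K] [NumberField K] (a : K) (hi : IsIntegral ℤ a) :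
    ((Ideal.absNorm (Ideal.span {(toInt a hi)}) : ℕ) : ℝ) = ∏ φ : K →+* ℂ, ‖φ a‖ := by
  rw [prod_norm_eq, Ideal.absNorm_span_singleton]
  have h1 : ((Algebra.norm ℤ (toInt a hi) : ℤ) : ℚ) = Algebra.norm ℚ a :=
    Algebra.coe_norm_int (toInt a hi)
  rw [← h1, Rat.cast_intCast, ← Int.cast_abs]
  rw [← Int.cast_natCast, Int.natCast_natAbs]

/-- Lower bound for the conjugates. -/
theorem log_lower {K : Type} [Field K] [NumberField K] (D : ℕ) (hD : Module.finrank ℚ K ≤ D)
    (H : ℝ) (hH : 1 ≤ H) (a : K) (ha : a ≠ 0)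
    (hi : IsIntegral ℤ a) (hb : ∀ φ : K →+* ℂ, ‖φ a‖ ≤ H) (φ : K →+* ℂ) :
    |Real.log ‖φ a‖| ≤ D * Real.log H := by
  classical
  have hpos : ∀ ψ : K →+* ℂ, 0 < ‖ψ a‖ := fun ψ => by
    rw [norm_pos_iff]
    exact (map_ne_zero ψ).2 ha
  have hlH : 0 ≤ Real.log H := Real.log_nonneg hH
  have h1 := one_le_prod a ha hi
  have h2 : 0 ≤ ∑ ψ : K →+* ℂ, Real.log ‖ψ a‖ := by
    rw [← Real.log_prod (fun ψ _ => (hpos ψ).ne')]
    exact Real.log_nonneg h1
  have hcard : Fintype.card (K →+* ℂ) = Module.finrank ℚ K := NumberField.Embeddings.card K ℂ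
  have hn : 0 < Module.finrank ℚ K := Module.finrank_pos
  have hD1 : (1 : ℝ) ≤ D := by exact_mod_cast (by omega : 1 ≤ D)
  have hup : ∀ ψ : K →+* ℂ, Real.log ‖ψ a‖ ≤ Real.log H := fun ψ =>
    Real.log_le_log (hpos ψ) (hb ψ)
  rw [abs_le]
  constructor
  · rw [← Finset.add_sum_erase _ _ (Finset.mem_univ φ)] at h2
    have h3 : ∑ ψ ∈ Finset.univ.erase φ, Real.log ‖ψ a‖ ≤
        ∑ ψ ∈ (Finset.univ : Finset (K →+* ℂ)).erase φ, Real.log H :=
      Finset.sum_le_sum fun ψ _ => hup ψ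
    rw [Finset.sum_const, Finset.card_erase_of_mem (Finset.mem_univ φ), Finset.card_univ, hcard,
      nsmul_eq_mul] at h3
    have h4 : ((Module.finrank ℚ K - 1 : ℕ) : ℝ) ≤ D := by
      exact_mod_cast (by omega : Module.finrank ℚ K - 1 ≤ D)
    have h5 : ((Module.finrank ℚ K - 1 : ℕ) : ℝ) * Real.log H ≤ D * Real.log H :=
      mul_le_mul_of_nonneg_right h4 hlH
    linarith
  · have := hup φ
    nlinarith

/-- Few elements with the same ideal and nearly the same conjugates. -/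
theorem fibre_bound (D : ℕ) (U : Finset ℂ) (hU : ∀ (K : Type) [Field K] [NumberField K],
    Module.finrank ℚ K ≤ D → ∀ x : K, IsIntegral ℤ x → (∀ φ : K →+* ℂ, ‖φ x‖ ≤ 3) →
      ∀ φ : K →+* ℂ, φ x ∈ U) (K : Type) [Field K] [NumberField K]
    (hD : Module.finrank ℚ K ≤ D) (R : Finset K) (a0 : K) (h0 : a0 ≠ 0)
    (hi0 : IsIntegral ℤ a0)
    (hR : ∀ a ∈ R, a ≠ 0 ∧ (∀ φ : K →+* ℂ, ⌊Real.log ‖φ a‖⌋ = ⌊Real.log ‖φ a0‖⌋) ∧
      ∃ hi : IsIntegral ℤ a, Ideal.span {(toInt a hi)} = Ideal.span {(toInt a0 hi0)}) :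
    R.card ≤ U.card := by
  classical
  obtain ⟨φ0⟩ : Nonempty (K →+* ℂ) := inferInstance
  apply Finset.card_le_card_of_injOn (fun a => φ0 (a / a0))
  · intro a ha
    obtain ⟨hane, hfl, hi, hsp⟩ := hR a ha
    refine hU K hD _ ?_ ?_ φ0
    · rw [Ideal.span_singleton_eq_span_singleton] at hsp
      obtain ⟨u, hu⟩ := hsp.symm
      have h1 : a0 * ((u : 𝓞 K) : K) = a := congrArg (algebraMap (𝓞 K) K) hu
      have h2 : a / a0 = ((u : 𝓞 K) : K) := by
        rw [← h1]; field_simp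
      rw [h2]
      exact RingOfIntegers.isIntegral_coe _
    · intro φ
      have hp : 0 < ‖φ a‖ := by
        rw [norm_pos_iff]; exact (map_ne_zero φ).2 hane
      have hp0 : 0 < ‖φ a0‖ := by
        rw [norm_pos_iff]; exact (map_ne_zero φ).2 h0
      rw [map_div₀, norm_div]
      have h3 : Real.log ‖φ a‖ - Real.log ‖φ a0‖ ≤ 1 := by
        have := Int.abs_sub_lt_one_of_floor_eq_floor (hfl φ)
        exact (le_abs_self _).trans this.le
      rw [← Real.log_div hp.ne' hp0.ne'] at h3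
      have h4 : ‖φ a‖ / ‖φ a0‖ ≤ Real.exp 1 := by
        rw [← Real.log_le_iff_le_exp (by positivity)]
        exact h3
      have h5 : Real.exp 1 < 3 := Real.exp_one_lt_three
      linarith
  · intro a _ b _ hab
    simp only at hab
    have := φ0.injective hab
    field_simp at this
    exact this

end NFDiv

open NFDiv in
/-- Divisor bound, uniform over all number fields of degree at most `D`: a nonzero `c` has at
most `C * H ^ ε` factorizations `c = a * b` into algebraic integers all of whose conjugates are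
bounded by `H`. -/
theorem nf_div_bound (D : ℕ) (ε : ℝ) (hε : 0 < ε) :
    ∃ C : ℝ, 0 < C ∧ ∀ (K : Type) [Field K] [NumberField K], Module.finrank ℚ K ≤ D →
      ∀ H : ℝ, 1 ≤ H → ∀ c : K, c ≠ 0 → ∀ S : Finset K,
        (∀ a ∈ S, IsIntegral ℤ a ∧ (∀ φ : K →+* ℂ, ‖φ a‖ ≤ H) ∧
          ∃ b : K, a * b = c ∧ IsIntegral ℤ b ∧ (∀ φ : K →+* ℂ, ‖φ b‖ ≤ H)) →
        (S.card : ℝ) ≤ C * H ^ ε := by
  classical
  set ε1 : ℝ := ε / (4 * (D + 1)) with hε1
  have hε1p : 0 < ε1 := by positivity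
  set δ : ℝ := ε / (2 * (D + 1)) with hδ
  have hδp : 0 < δ := by positivity
  obtain ⟨C1, hC1, hdiv⟩ := ideal_div_bound D ε1 hε1p
  obtain ⟨U, hU⟩ := unit_set D
  set L : ℝ := 2 * D / δ + 3 with hL
  have hL1 : 1 ≤ L := by
    have : 0 ≤ 2 * D / δ := by positivity
    linarith
  refine ⟨((U.card : ℝ) + 1) * C1 * L ^ D, by positivity, ?_⟩
  intro K _ _ hD H hH c hc S hS
  have hlH : 0 ≤ Real.log H := Real.log_nonneg hH
  rcases S.eq_empty_or_nonempty with rfl | ⟨a1, ha1⟩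
  · simp only [Finset.card_empty, Nat.cast_zero]
    positivity
  -- `c` is integral
  have hci : IsIntegral ℤ c := by
    obtain ⟨h1, _, b, hb, hbi, _⟩ := hS a1 ha1
    rw [← hb]; exact h1.mul hbi
  have hcb : ∀ φ : K →+* ℂ, ‖φ c‖ ≤ H ^ 2 := by
    intro φ
    obtain ⟨_, h2, b, hb, _, h3⟩ := hS a1 ha1
    rw [← hb, map_mul, norm_mul, sq]
    exact mul_le_mul (h2 φ) (h3 φ) (norm_nonneg _) (by linarith)
  have hne : ∀ a ∈ S, a ≠ 0 := by
    intro a ha h
    obtain ⟨_, _, b, hb, _⟩ := hS a ha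
    rw [h, zero_mul] at hb
    exact hc hb.symm
  let f : K → Ideal (𝓞 K) := fun a =>
    if h : IsIntegral ℤ a then Ideal.span {(toInt a h)} else ⊥
  have hf : ∀ a (h : IsIntegral ℤ a), f a = Ideal.span {(toInt a h)} := by
    intro a h
    simp only [f, dif_pos h]
  let v : K → (K →+* ℂ) → ℤ := fun a φ => ⌊Real.log ‖φ a‖⌋
  set M : ℤ := ⌈(D : ℝ) * Real.log H⌉ with hM
  let V : Finset ((K →+* ℂ) → ℤ) := Fintype.piFinset (fun _ => Finset.Icc (-M) M)
  have hM0 : 0 ≤ M := by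
    rw [hM]; apply Int.ceil_nonneg; positivity
  set T : Finset (Ideal (𝓞 K)) := S.image f with hT
  have hmaps : ∀ a ∈ S, (f a, v a) ∈ T ×ˢ V := by
    intro a ha
    rw [Finset.mem_product]
    refine ⟨Finset.mem_image_of_mem _ ha, ?_⟩
    rw [Fintype.mem_piFinset]
    intro φ
    obtain ⟨h1, h2, _⟩ := hS a ha
    have h3 := log_lower D hD H hH a (hne a ha) h1 h2 φ
    rw [abs_le] at h3
    have hMle : (D : ℝ) * Real.log H ≤ M := Int.le_ceil _
    rw [Finset.mem_Icc]
    constructor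
    · simp only [v]
      rw [Int.le_floor]
      push_cast
      linarith
    · simp only [v]
      have h4 : ((⌊Real.log ‖φ a‖⌋ : ℤ) : ℝ) ≤ Real.log ‖φ a‖ := Int.floor_le _
      have h5 : ((⌊Real.log ‖φ a‖⌋ : ℤ) : ℝ) ≤ (M : ℝ) := by linarith
      exact_mod_cast h5
  have hfib : ∀ b ∈ T ×ˢ V, (S.filter (fun a => (f a, v a) = b)).card ≤ U.card := by
    intro b _
    rcases (S.filter (fun a => (f a, v a) = b)).eq_empty_or_nonempty with he | ⟨a0, ha0⟩
    · rw [he]; simp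
    · rw [Finset.mem_filter] at ha0
      obtain ⟨ha0S, hab⟩ := ha0
      refine fibre_bound D U hU K hD _ a0 (hne a0 ha0S) (hS a0 ha0S).1 ?_
      intro a ha
      rw [Finset.mem_filter] at ha
      obtain ⟨haS, hab'⟩ := ha
      rw [← hab] at hab'
      obtain ⟨h1, h2⟩ := Prod.mk.injEq _ _ _ _ ▸ hab'
      refine ⟨hne a haS, fun φ => congrFun h2 φ, (hS a haS).1, ?_⟩
      rw [← hf, ← hf]; exact h1
  have hcard := Finset.card_le_mul_card_image_of_maps_to hmaps U.card hfib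
  rw [Finset.card_product] at hcard
  have hVcard : V.card = (2 * M + 1).toNat ^ (Module.finrank ℚ K) := by
    rw [Fintype.card_piFinset]
    simp only [Finset.prod_const, Finset.card_univ, Int.card_Icc]
    rw [NumberField.Embeddings.card K ℂ]
    congr 2
    ring
  have hI0 : Ideal.span {(toInt c hci)} ≠ ⊥ := by
    rw [Ne, Ideal.span_singleton_eq_bot]
    intro h
    exact hc (congrArg (algebraMap (𝓞 K) K) h)
  have hTcard := hdiv K hD (Ideal.span {(toInt c hci)}) hI0 T (by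
    intro J hJ
    rw [hT, Finset.mem_image] at hJ
    obtain ⟨a, haS, rfl⟩ := hJ
    obtain ⟨h1, _, b, hb, hbi, _⟩ := hS a haS
    rw [hf a h1]
    rw [Ideal.dvd_span_singleton, Ideal.mem_span_singleton]
    refine ⟨toInt b hbi, ?_⟩
    apply RingOfIntegers.coe_injective
    exact hb.symm)
  have hDr : (Module.finrank ℚ K : ℝ) ≤ D := by exact_mod_cast hD
  have hnormc : ((Ideal.absNorm (Ideal.span {(toInt c hci)}) : ℕ) : ℝ) ^ ε1 ≤ H ^ (ε / 2) := by
    rw [absNorm_span_eq]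
    have h1 : ∏ φ : K →+* ℂ, ‖φ c‖ ≤ (H ^ 2) ^ D := by
      refine (Finset.prod_le_prod (fun φ _ => norm_nonneg _) (fun φ _ => hcb φ)).trans ?_
      rw [Finset.prod_const, Finset.card_univ, NumberField.Embeddings.card K ℂ]
      exact pow_le_pow_right₀ (one_le_pow₀ hH) hD
    have h2 : (∏ φ : K →+* ℂ, ‖φ c‖) ^ ε1 ≤ ((H ^ 2) ^ D) ^ ε1 :=
      Real.rpow_le_rpow (Finset.prod_nonneg fun φ _ => norm_nonneg _) h1 hε1p.le
    refine h2.trans ?_
    rw [← pow_mul, ← Real.rpow_natCast H (2 * D), ← Real.rpow_mul (by linarith)]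
    apply Real.rpow_le_rpow_of_exponent_le hH
    rw [hε1]
    push_cast
    have : (2 * (D : ℝ)) * (ε / (4 * (D + 1))) = (ε / 2) * (D / (D + 1)) := by
      field_simp
      ring
    rw [this]
    have h3 : (D : ℝ) / (D + 1) ≤ 1 := by
      rw [div_le_one (by positivity)]; linarith
    nlinarith
  have hVb : (V.card : ℝ) ≤ L ^ D * H ^ (ε / 2) := by
    rw [hVcard]
    have h1 : (((2 * M + 1).toNat : ℕ) : ℝ) = 2 * (M : ℝ) + 1 := by
      have : (((2 * M + 1).toNat : ℕ) : ℤ) = 2 * M + 1 := Int.toNat_of_nonneg (by omega)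
      exact_mod_cast this
    push_cast
    rw [h1]
    have h2 : (M : ℝ) < D * Real.log H + 1 := Int.ceil_lt_add_one _
    have h3 : Real.log H ≤ H ^ δ / δ := Real.log_le_rpow_div (by linarith) hδp
    have h4 : (1 : ℝ) ≤ H ^ δ := Real.one_le_rpow hH hδp.le
    have h5 : 2 * (M : ℝ) + 1 ≤ L * H ^ δ := by
      have h6 : (D : ℝ) * Real.log H ≤ D * (H ^ δ / δ) :=
        mul_le_mul_of_nonneg_left h3 (by positivity)
      have h7 : L * H ^ δ = 2 * (D * (H ^ δ / δ)) + 3 * H ^ δ := by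
        rw [hL]; ring
      rw [h7]; linarith
    have h8 : 0 ≤ 2 * (M : ℝ) + 1 := by
      have : (0 : ℝ) ≤ M := by exact_mod_cast hM0
      linarith
    have h9 : 1 ≤ L * H ^ δ := by nlinarith
    calc (2 * (M : ℝ) + 1) ^ (Module.finrank ℚ K) ≤ (L * H ^ δ) ^ (Module.finrank ℚ K) :=
          pow_le_pow_left₀ h8 h5 _
      _ ≤ (L * H ^ δ) ^ D := pow_le_pow_right₀ h9 hD
      _ = L ^ D * (H ^ δ) ^ D := by rw [mul_pow]
      _ ≤ L ^ D * H ^ (ε / 2) := by
          refine mul_le_mul_of_nonneg_left ?_ (by positivity)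
          rw [← Real.rpow_natCast, ← Real.rpow_mul (by linarith)]
          apply Real.rpow_le_rpow_of_exponent_le hH
          rw [hδ]
          have : ε / (2 * ((D : ℝ) + 1)) * D = (ε / 2) * (D / (D + 1)) := by
            field_simp
          rw [this]
          have h3 : (D : ℝ) / (D + 1) ≤ 1 := by
            rw [div_le_one (by positivity)]; linarith
          nlinarith
  have hcard' : (S.card : ℝ) ≤ U.card * (T.card * V.card) := by exact_mod_cast hcard
  have hHh : 0 < H ^ (ε / 2) := by positivity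
  have hT2 : (T.card : ℝ) ≤ C1 * H ^ (ε / 2) :=
    hTcard.trans (mul_le_mul_of_nonneg_left hnormc (by linarith))
  calc (S.card : ℝ) ≤ U.card * (T.card * V.card) := hcard'
    _ ≤ ((U.card : ℝ) + 1) * ((C1 * H ^ (ε / 2)) * (L ^ D * H ^ (ε / 2))) := by
        refine mul_le_mul (by linarith) ?_ (by positivity) (by positivity)
        exact mul_le_mul hT2 hVb (by positivity) (by positivity)
    _ = ((U.card : ℝ) + 1) * C1 * L ^ D * (H ^ (ε / 2) * H ^ (ε / 2)) := by ring
    _ = ((U.card : ℝ) + 1) * C1 * L ^ D * H ^ ε := by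
        rw [← Real.rpow_add (by linarith)]
        congr 2
        ring

end Pool.Agent.W_MP_96b415_co
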