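import Pool.Agent.W_MP_96b415_co.Defs

/-! Uniform avoidance: specializations of a finitely generated algebra that keep all nonzero
linear combinations of finitely many elements nonzero, controlled by one polynomial. -/

set_option autoImplicit false

namespace Pool.Agent.W_MP_96b415_co

open MvPolynomial

/-- Multiplication by finitely many elements of a finite extension of domains is given, up to a
common denominator, by matrices with respect to a linearly independent family. -/
lemma exists_mult_matrix (S R : Type) [CommRing S] [IsDomain S] [IsNoetherianRing S]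
    [CommRing R] [IsDomain R] [Algebra S R] [Module.Finite S R]
    (hinj : Function.Injective (algebraMap S R)) (ι : Type) [Fintype ι] (A : ι → R) :
    ∃ (κ : Type) (_ : Fintype κ) (_ : DecidableEq κ) (b : κ → R) (h : S)
      (B : ι → κ → κ → S), LinearIndependent S b ∧ (∃ j, b j ≠ 0) ∧ h ≠ 0 ∧
      ∀ i j, algebraMap S R h * A i * b j = ∑ l, algebraMap S R (B i j l) * b l := by
  classical
  obtain ⟨s, hs, hmax⟩ := exists_maximal_linearIndepOn S (id : R → R)
  have hs' : LinearIndependent S (fun x : s => (x : R)) := hs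
  have hfin : Finite s := hs'.finite_of_isNoetherian
  have : Fintype s := Fintype.ofFinite s
  have hmem : ∀ r : R, ∃ a : S, a ≠ 0 ∧
      a • r ∈ Submodule.span S (Set.range (fun x : s => (x : R))) := by
    intro r
    by_cases hr : r ∈ s
    · refine ⟨1, one_ne_zero, ?_⟩
      rw [one_smul]
      exact Submodule.subset_span ⟨⟨r, hr⟩, rfl⟩
    · obtain ⟨a, ha, ha'⟩ := hmax r hr
      refine ⟨a, ha, ?_⟩
      simpa using ha'
  choose a ha ha' using hmem
  have hcoef : ∀ (i : ι) (j : s), ∃ c : s → S,
      ∑ l, c l • (l : R) = (∏ i', ∏ j' : s, a (A i' * (j' : R))) • (A i * (j : R)) := by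
    intro i j
    rw [← Submodule.mem_span_range_iff_exists_fun]
    have h1 : a (A i * (j : R)) ∣ ∏ i', ∏ j' : s, a (A i' * (j' : R)) :=
      (Finset.dvd_prod_of_mem (fun j' : s => a (A i * (j' : R))) (Finset.mem_univ j)).trans
        (Finset.dvd_prod_of_mem (fun i' => ∏ j' : s, a (A i' * (j' : R))) (Finset.mem_univ i))
    obtain ⟨d, hd⟩ := h1
    rw [hd, mul_comm, mul_smul]
    exact Submodule.smul_mem _ _ (ha' _)
  choose B hB using hcoef
  refine ⟨s, inferInstance, inferInstance, fun x => (x : R),
    ∏ i', ∏ j' : s, a (A i' * (j' : R)), B, hs', ?_, ?_, ?_⟩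
  · have hne : Nonempty s := by
      by_contra hemp
      rw [not_nonempty_iff] at hemp
      have h1 := ha' 1
      rw [Set.range_eq_empty, Submodule.span_empty, Submodule.mem_bot, Algebra.smul_def,
        mul_one] at h1
      exact ha 1 (hinj (by rw [h1, map_zero]))
    obtain ⟨j⟩ := hne
    exact ⟨j, hs'.ne_zero j⟩
  · exact Finset.prod_ne_zero_iff.2 fun i _ => Finset.prod_ne_zero_iff.2 fun j _ => ha _
  · intro i j
    have := hB i j
    simp only [Algebra.smul_def] at this
    rw [this, mul_assoc]

/-- Points of affine space lift along an integral extension. -/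
lemma exists_lift_point (k R : Type) [Field k] [IsAlgClosed k] [CommRing R] [IsDomain R]
    [Algebra k R] (s : ℕ) (g : MvPolynomial (Fin s) k →ₐ[k] R) (hinj : Function.Injective g)
    (hint : g.toRingHom.IsIntegral) (c : Fin s → k) :
    ∃ φ : R →ₐ[k] k, ∀ p, φ (g p) = eval c p := by
  let _ : Algebra (MvPolynomial (Fin s) k) R := g.toRingHom.toAlgebra
  have hI : Algebra.IsIntegral (MvPolynomial (Fin s) k) R := ⟨hint⟩
  have hsurj : Function.Surjective (eval c : MvPolynomial (Fin s) k →+* k) :=
    fun a => ⟨C a, by simp⟩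
  have hmax : (RingHom.ker (eval c : MvPolynomial (Fin s) k →+* k)).IsMaximal :=
    RingHom.ker_isMaximal_of_surjective _ hsurj
  obtain ⟨Q, hQ, hQc⟩ := Ideal.exists_ideal_over_maximal_of_isIntegral
    (S := R) (RingHom.ker (eval c : MvPolynomial (Fin s) k →+* k)) (by
      rw [(RingHom.injective_iff_ker_eq_bot
        (algebraMap (MvPolynomial (Fin s) k) R)).1 hinj]
      exact bot_le)
  have hker : ∀ p : MvPolynomial (Fin s) k, eval c p = 0 → g p ∈ Q := by
    intro p hp
    have : p ∈ Q.comap (algebraMap (MvPolynomial (Fin s) k) R) := by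
      rw [hQc]; exact hp
    exact this
  have hgp : ∀ p : MvPolynomial (Fin s) k, g p - algebraMap k R (eval c p) ∈ Q := by
    intro p
    have h1 := hker (p - C (eval c p)) (by simp)
    rw [map_sub] at h1
    have h2 : g (C (eval c p)) = algebraMap k R (eval c p) := by
      rw [← MvPolynomial.algebraMap_eq, AlgHom.commutes]
    rwa [h2] at h1
  have hField : IsDomain (R ⧸ Q) := Ideal.Quotient.isDomain Q
  have hIk : Algebra.IsIntegral k (R ⧸ Q) := by
    refine ⟨fun y => ?_⟩
    obtain ⟨r, rfl⟩ := Ideal.Quotient.mk_surjective y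
    obtain ⟨P, hP, hPr⟩ := hint r
    refine ⟨P.map (eval c), hP.map _, ?_⟩
    have h3 : (algebraMap k (R ⧸ Q)).comp (eval c : MvPolynomial (Fin s) k →+* k) =
        (Ideal.Quotient.mk Q).comp g.toRingHom := by
      refine RingHom.ext fun p => ?_
      have := Ideal.Quotient.eq.2 (hgp p)
      exact this.symm
    rw [Polynomial.eval₂_map, h3, ← Polynomial.hom_eval₂, hPr, map_zero]
  have hbij := IsAlgClosed.algebraMap_bijective_of_isIntegral (k := k) (K := R ⧸ Q)
  let e : k ≃ₐ[k] (R ⧸ Q) := AlgEquiv.ofBijective (Algebra.ofId k (R ⧸ Q)) hbij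
  refine ⟨(e.symm : (R ⧸ Q) →ₐ[k] k).comp (Ideal.Quotient.mkₐ k Q), fun p => ?_⟩
  have h4 : (Ideal.Quotient.mk Q) (g p) = algebraMap k (R ⧸ Q) (eval c p) := by
    have := Ideal.Quotient.eq.2 (hgp p)
    rw [this]
    rfl
  change e.symm (Ideal.Quotient.mk Q (g p)) = _
  rw [h4, AlgEquiv.commutes]
  rfl

theorem exists_avoid_poly (k R : Type) [Field k] [IsAlgClosed k] [CommRing R] [IsDomain R]
    [Algebra k R] [Algebra.FiniteType k R] (ι : Type) [Fintype ι] (A : ι → R) :
    ∃ (s : ℕ) (Γ : MvPolynomial ι (MvPolynomial (Fin s) k)),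
      (∀ x : ι → k, ∑ i, algebraMap k R (x i) * A i ≠ 0 →
        eval (fun i => (C (x i) : MvPolynomial (Fin s) k)) Γ ≠ 0) ∧
      (∀ c : Fin s → k, ∃ φ : R →ₐ[k] k, ∀ x : ι → k,
        eval c (eval (fun i => (C (x i) : MvPolynomial (Fin s) k)) Γ) ≠ 0 →
        φ (∑ i, algebraMap k R (x i) * A i) ≠ 0) := by
  classical
  obtain ⟨s, g, hinj, hfin⟩ := exists_finite_inj_algHom_of_fg k R
  let _ : Algebra (MvPolynomial (Fin s) k) R := g.toRingHom.toAlgebra
  have hmf : Module.Finite (MvPolynomial (Fin s) k) R := hfin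
  have hint : g.toRingHom.IsIntegral := RingHom.Finite.to_isIntegral hfin
  obtain ⟨κ, _, _, b, h, B, hb, ⟨j₀, hj₀⟩, hh, hB⟩ :=
    exists_mult_matrix (MvPolynomial (Fin s) k) R hinj ι A
  have halg : ∀ p : MvPolynomial (Fin s) k, algebraMap (MvPolynomial (Fin s) k) R p = g p :=
    fun p => rfl
  have hC : ∀ y : k, g (C y) = algebraMap k R y := fun y => by
    rw [← MvPolynomial.algebraMap_eq, AlgHom.commutes]
  let M : (ι → k) → Matrix κ κ (MvPolynomial (Fin s) k) :=
    fun x j l => ∑ i, C (x i) * B i j l
  have hM : ∀ (x : ι → k) (j : κ), g h * (∑ i, algebraMap k R (x i) * A i) * b j =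
      ∑ l, g (M x j l) * b l := by
    intro x j
    simp only [M, map_sum, map_mul, hC, Finset.mul_sum, Finset.sum_mul]
    rw [Finset.sum_comm]
    refine Finset.sum_congr rfl fun i _ => ?_
    have := hB i j
    simp only [halg] at this
    calc g h * (algebraMap k R (x i) * A i) * b j
        = algebraMap k R (x i) * (g h * A i * b j) := by ring
      _ = ∑ l, algebraMap k R (x i) * g (B i j l) * b l := by
          rw [this, Finset.mul_sum]
          exact Finset.sum_congr rfl fun l _ => by ring
  let Γ : MvPolynomial ι (MvPolynomial (Fin s) k) :=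
    Matrix.det (fun j l => ∑ i, X i * C (B i j l) : Matrix κ κ _)
  have hΓ : ∀ x : ι → k, eval (fun i => (C (x i) : MvPolynomial (Fin s) k)) Γ = (M x).det := by
    intro x
    simp only [Γ]
    rw [RingHom.map_det]
    congr 1
    ext j l : 2
    simp [M, RingHom.mapMatrix_apply]
  refine ⟨s, Γ, ?_, ?_⟩
  · intro x hx
    rw [hΓ]
    intro hdet
    obtain ⟨v, hv, hvM⟩ := Matrix.exists_vecMul_eq_zero_iff.2 hdet
    apply hv
    have h1 : ∑ j, v j • b j = 0 := by
      have h2 : g h * (∑ i, algebraMap k R (x i) * A i) * ∑ j, v j • b j = 0 := by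
        rw [Finset.mul_sum]
        have h3 : ∀ j, g h * (∑ i, algebraMap k R (x i) * A i) * v j • b j =
            ∑ l, g (v j * M x j l) * b l := by
          intro j
          rw [Algebra.smul_def, halg]
          calc g h * (∑ i, algebraMap k R (x i) * A i) * (g (v j) * b j)
              = g (v j) * (g h * (∑ i, algebraMap k R (x i) * A i) * b j) := by ring
            _ = _ := by
              rw [hM, Finset.mul_sum]
              exact Finset.sum_congr rfl fun l _ => by rw [map_mul]; ring
        rw [Finset.sum_congr rfl fun j _ => h3 j, Finset.sum_comm]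
        refine Finset.sum_eq_zero fun l _ => ?_
        rw [← Finset.sum_mul, ← map_sum]
        have h4 := congrFun hvM l
        simp only [Matrix.vecMul, dotProduct, Pi.zero_apply] at h4
        rw [h4, map_zero, zero_mul]
      rcases mul_eq_zero.1 h2 with h3 | h3
      · rcases mul_eq_zero.1 h3 with h4 | h4
        · exact absurd (hinj (by rw [h4, map_zero])) hh
        · exact absurd h4 hx
      · exact h3
    exact funext (Fintype.linearIndependent_iff.1 hb v h1)
  · intro c
    obtain ⟨φ, hφ⟩ := exists_lift_point k R s g hinj hint c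
    refine ⟨φ, fun x hx hzero => hx ?_⟩
    rw [hΓ]
    set L : R := ∑ i, algebraMap k R (x i) * A i with hL
    let N : Matrix κ κ R := (g h * L) • (1 : Matrix κ κ R) - (M x).map g
    have hN : N.det = 0 := by
      rw [← Matrix.exists_mulVec_eq_zero_iff]
      refine ⟨b, fun h0 => hj₀ (congrFun h0 j₀), ?_⟩
      ext j
      simp only [N, Matrix.sub_mulVec, Matrix.smul_mulVec, Matrix.one_mulVec, Pi.sub_apply,
        Pi.smul_apply, smul_eq_mul, Pi.zero_apply]
      rw [hM x j]
      simp [Matrix.mulVec, dotProduct]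
    have h5 : (φ : R →+* k) N.det = 0 := by rw [hN, map_zero]
    rw [RingHom.map_det] at h5
    have h6 : (φ : R →+* k).mapMatrix N = -((M x).map (eval c)) := by
      ext j l
      simp only [N, RingHom.mapMatrix_apply, Matrix.map_apply, Matrix.sub_apply,
        Matrix.smul_apply, smul_eq_mul, map_sub, map_mul, Matrix.neg_apply]
      change φ (g h) * φ L * _ - φ (g (M x j l)) = _
      rw [hzero, hφ (M x j l)]
      ring
    rw [h6, Matrix.det_neg] at h5
    have h7 : ((M x).map (eval c)).det = 0 := by
      rcases mul_eq_zero.1 h5 with h8 | h8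
      · exact absurd h8 (pow_ne_zero _ (neg_ne_zero.2 one_ne_zero))
      · exact h8
    rw [RingHom.map_det]
    exact h7

end Pool.Agent.W_MP_96b415_co
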