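import Pool.Agent.W_MP_96b415_co.NFDiv

/-! Divisor bound for generalized progressions with tame (algebraic) generators. -/

set_option autoImplicit false

namespace Pool.Agent.W_MP_96b415_co

open IntermediateField Module

lemma Tame.isIntegral {D : ℕ} {H : ℝ} {z : ℂ} (hz : Tame D H z) : IsIntegral ℚ z := by
  obtain ⟨p, hp0, -, -, hroot⟩ := hz
  have h : IsAlgebraic ℤ z := ⟨p, hp0, hroot⟩
  exact (h.extendScalars (R := ℤ) (S := ℚ) (by intro a b h; simpa using h)).isIntegral

lemma finrank_adjoin_tame {D : ℕ} {H : ℝ} {z : ℂ} (hz : Tame D H z) :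
    finrank ℚ (ℚ⟮z⟯) ≤ D := by
  have hint := hz.isIntegral
  obtain ⟨p, hp0, hpd, -, hroot⟩ := hz
  rw [IntermediateField.adjoin.finrank hint]
  have h0 : p.map (algebraMap ℤ ℚ) ≠ 0 := by
    rw [Ne, Polynomial.map_eq_zero_iff (by intro a b h; simpa using h)]; exact hp0
  have hdvd : minpoly ℚ z ∣ p.map (algebraMap ℤ ℚ) := by
    apply minpoly.dvd
    rw [Polynomial.aeval_map_algebraMap]; exact hroot
  exact (Polynomial.natDegree_le_of_dvd hdvd h0).trans (Polynomial.natDegree_map_le.trans hpd)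

lemma finrank_adjoin_image {ι : Type} {D : ℕ} {H : ℝ} {b : ι → ℂ}
    (hb : ∀ i, Tame D H (b i)) (s : Finset ι) :
    finrank ℚ (adjoin ℚ (b '' (s : Set ι))) ≤ D ^ s.card := by
  classical
  induction s using Finset.induction_on with
  | empty =>
    rw [Finset.coe_empty, Set.image_empty, adjoin_empty, IntermediateField.finrank_bot]; simp
  | insert i s hi ih =>
    have h1 : adjoin ℚ (b '' ((insert i s : Finset ι) : Set ι)) = ℚ⟮b i⟯ ⊔ adjoin ℚ (b '' (s : Set ι)) := by
      rw [Finset.coe_insert, Set.image_insert_eq, ← Set.singleton_union, adjoin_union]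
    rw [h1, Finset.card_insert_of_notMem hi, pow_succ, mul_comm]
    exact (finrank_sup_le _ _).trans (Nat.mul_le_mul (finrank_adjoin_tame (hb i)) ih)

/-- Cauchy bound in the form used here. -/
lemma norm_root_le {H : ℝ} (hH : 1 ≤ H) {p : Polynomial ℤ} (hp0 : p ≠ 0)
    (hc : ∀ j, |((p.coeff j : ℤ) : ℝ)| ≤ H) {z : ℂ} (hz : Polynomial.aeval z p = 0) :
    ‖z‖ ≤ 2 * H := by
  set P : Polynomial ℂ := p.map (algebraMap ℤ ℂ) with hP
  have hP0 : P ≠ 0 := by
    rw [hP, Ne, Polynomial.map_eq_zero_iff (by intro a b h; simpa using h)]; exact hp0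
  have hroot : P.IsRoot z := by
    rw [Polynomial.IsRoot.def, hP, Polynomial.eval_map_algebraMap]; exact hz
  have h1 := Polynomial.IsRoot.norm_lt_cauchyBound hP0 hroot
  have hlc : (1 : NNReal) ≤ ‖P.leadingCoeff‖₊ := by
    have : P.leadingCoeff = ((p.leadingCoeff : ℤ) : ℂ) := by
      rw [hP, Polynomial.leadingCoeff_map_of_injective (by intro a b h; simpa using h)]
      simp
    rw [this, ← NNReal.coe_le_coe, coe_nnnorm, Complex.norm_intCast, ← Int.cast_abs]
    have h2 : p.leadingCoeff ≠ 0 := Polynomial.leadingCoeff_ne_zero.mpr hp0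
    have h3 : (1 : ℤ) ≤ |p.leadingCoeff| := Int.one_le_abs h2
    have h4 : ((1 : ℤ) : ℝ) ≤ ((|p.leadingCoeff| : ℤ) : ℝ) := Int.cast_le.mpr h3
    simpa using h4
  have h2 : (Polynomial.cauchyBound P : ℝ) ≤ H + 1 := by
    unfold Polynomial.cauchyBound
    rw [NNReal.coe_add, NNReal.coe_div, NNReal.coe_one]
    have h3 : ((Finset.sup (Finset.range P.natDegree) (‖P.coeff ·‖₊) : NNReal) : ℝ) ≤ H := by
      have : (Finset.sup (Finset.range P.natDegree) (‖P.coeff ·‖₊) : NNReal) ≤ H.toNNReal := by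
        apply Finset.sup_le
        intro j _
        rw [Real.le_toNNReal_iff_coe_le (by linarith), coe_nnnorm, hP, Polynomial.coeff_map]
        simpa using hc j
      rwa [Real.le_toNNReal_iff_coe_le (by linarith)] at this
    have h4 : (1 : ℝ) ≤ (‖P.leadingCoeff‖₊ : ℝ) := by exact_mod_cast hlc
    have h5 : ((Finset.sup (Finset.range P.natDegree) (‖P.coeff ·‖₊) : NNReal) : ℝ) / (‖P.leadingCoeff‖₊ : ℝ) ≤ H := by
      rw [div_le_iff₀ (by linarith)]
      calc _ ≤ H := h3
        _ = H * 1 := by ring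
        _ ≤ _ := by gcongr
    linarith
  have h6 : ‖z‖ < (Polynomial.cauchyBound P : ℝ) := by exact_mod_cast h1
  linarith

theorem tame_div_bound (ι : Type) [Fintype ι] (D κ : ℕ) (ε : ℝ) (hε : 0 < ε) :
    ∃ C : ℝ, 0 < C ∧ ∀ N : ℝ, 1 ≤ N → ∀ b : ι → ℂ, (∀ i, Tame D (N ^ κ) (b i)) →
      ∀ c : ℂ, c ≠ 0 → ∀ S : Finset ℂ,
        (∀ u ∈ S, u ∈ gap b N ∧ ∃ v ∈ gap b N, u * v = c) →
        (S.card : ℝ) ≤ C * N ^ ε := by
  classical
  set m := Fintype.card ι with hm
  set e : ℕ := κ * m + κ + 1 with he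
  have hepos : (0 : ℝ) < (e : ℝ) := by rw [he]; positivity
  obtain ⟨C₀, hC₀, hdiv⟩ := nf_div_bound (D ^ m) (ε / e) (by positivity)
  refine ⟨C₀ * (2 * m + 1 : ℝ) ^ (ε / e), by positivity, ?_⟩
  intro N hN b hb c hc S hS
  have hN0 : (0 : ℝ) ≤ N := by linarith
  have hNκ : (1 : ℝ) ≤ N ^ κ := one_le_pow₀ hN
  -- the field
  let K : IntermediateField ℚ ℂ := adjoin ℚ (Set.range b)
  have hK : K = adjoin ℚ (b '' ((Finset.univ : Finset ι) : Set ι)) := by
    simp [K, Set.image_univ]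
  have hfin : finrank ℚ K ≤ D ^ m := by
    rw [hK, hm, ← Finset.card_univ]
    exact finrank_adjoin_image hb _
  have : FiniteDimensional ℚ K := by
    have : Finite (Set.range b) := Set.finite_range b
    exact finiteDimensional_adjoin (by
      rintro x ⟨i, rfl⟩; exact (hb i).isIntegral)
  have : NumberField K := ⟨⟩
  -- polynomials
  choose p hp0 hpd hpc hpr using hb
  let q : ℤ := ∏ i, (p i).leadingCoeff
  have hq0 : q ≠ 0 := Finset.prod_ne_zero_iff.mpr fun i _ => Polynomial.leadingCoeff_ne_zero.mpr (hp0 i)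
  have hqle : |(q : ℝ)| ≤ N ^ (κ * m) := by
    have : |(q : ℝ)| = ∏ i, |(((p i).leadingCoeff : ℤ) : ℝ)| := by
      simp only [q]; push_cast; rw [Finset.abs_prod]
    rw [this, pow_mul]
    calc ∏ i, |(((p i).leadingCoeff : ℤ) : ℝ)| ≤ ∏ _i : ι, N ^ κ :=
          Finset.prod_le_prod (fun i _ => abs_nonneg _) fun i _ => hpc i _
      _ = _ := by simp [hm]
  -- generators in K
  have hbK : ∀ i, b i ∈ K := fun i => subset_adjoin _ _ ⟨i, rfl⟩
  let β : ι → K := fun i => ⟨b i, hbK i⟩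
  have hβr : ∀ i, Polynomial.aeval (β i) (p i) = 0 := by
    intro i
    apply Subtype.coe_injective
    have := Polynomial.aeval_algebraMap_apply ℂ (β i) (p i)
    have h2 : Polynomial.aeval (algebraMap K ℂ (β i)) (p i) = 0 := hpr i
    rw [h2] at this
    exact this.symm
  have hβint : ∀ i, IsIntegral ℤ ((q : K) * β i) := by
    intro i
    have h1 : IsIntegral ℤ ((p i).leadingCoeff • β i) := isIntegral_leadingCoeff_smul _ _ (hβr i)
    have h2 : (q : K) * β i = ((∏ j ∈ Finset.univ.erase i, (p j).leadingCoeff : ℤ) : K) * ((p i).leadingCoeff • β i) := by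
      have : q = (∏ j ∈ Finset.univ.erase i, (p j).leadingCoeff) * (p i).leadingCoeff := by
        simp only [q]; rw [Finset.prod_erase_mul _ _ (Finset.mem_univ i)]
      rw [this]
      push_cast
      rw [zsmul_eq_mul]
      ring
    rw [h2]
    exact (isIntegral_algebraMap (R := ℤ) (x := (∏ j ∈ Finset.univ.erase i, (p j).leadingCoeff : ℤ))).mul h1
  have hβnorm : ∀ (φ : K →+* ℂ) (i : ι), ‖φ (β i)‖ ≤ 2 * N ^ κ := by
    intro φ i
    refine norm_root_le hNκ (hp0 i) (hpc i) ?_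
    have := Polynomial.aeval_algHom_apply (φ.toIntAlgHom) (β i) (p i)
    rw [hβr i, map_zero] at this
    exact this
  set H : ℝ := (2 * m + 1) * N ^ e with hH
  have hH1 : 1 ≤ H := by
    have h1 : (1 : ℝ) ≤ N ^ e := one_le_pow₀ hN
    have h2 : (1 : ℝ) ≤ 2 * m + 1 := by have : (0:ℝ) ≤ m := by positivity
                                        linarith
    calc (1:ℝ) = 1 * 1 := by ring
      _ ≤ _ := by rw [hH]; gcongr
  -- elements of gap
  have key : ∀ u : ℂ, u ∈ gap b N → ∃ a : K, (a : ℂ) = u ∧ IsIntegral ℤ ((q : K) * a) ∧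
      ∀ φ : K →+* ℂ, ‖φ ((q : K) * a)‖ ≤ H := by
    rintro u ⟨x, hx, rfl⟩
    refine ⟨∑ i, (x i : K) * β i, ?_, ?_, ?_⟩
    · push_cast; rfl
    · have : (q : K) * ∑ i, (x i : K) * β i = ∑ i, (x i : K) * ((q : K) * β i) := by
        rw [Finset.mul_sum]; apply Finset.sum_congr rfl; intro i _; ring
      rw [this]
      apply IsIntegral.sum
      intro i _
      exact (isIntegral_algebraMap (R := ℤ) (x := x i)).mul (hβint i)
    · intro φ
      have h1 : ‖φ (∑ i, (x i : K) * β i)‖ ≤ m * (N * (2 * N ^ κ)) := by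
        rw [map_sum]
        refine (norm_sum_le _ _).trans ?_
        calc ∑ i, ‖φ ((x i : K) * β i)‖ ≤ ∑ _i : ι, N * (2 * N ^ κ) := by
              apply Finset.sum_le_sum
              intro i _
              rw [map_mul, norm_mul, map_intCast, Complex.norm_intCast]
              exact mul_le_mul (hx i) (hβnorm φ i) (norm_nonneg _) hN0
          _ = _ := by simp [hm]
      rw [map_mul, norm_mul, map_intCast, Complex.norm_intCast]
      calc |(q : ℝ)| * ‖φ (∑ i, (x i : K) * β i)‖ ≤ N ^ (κ * m) * (m * (N * (2 * N ^ κ))) := by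
            gcongr
        _ = (2 * m) * N ^ e := by rw [he, pow_add, pow_add]; ring
        _ ≤ H := by rw [hH]; gcongr; linarith
  -- main
  rcases S.eq_empty_or_nonempty with rfl | ⟨u₀, hu₀⟩
  · simp; positivity
  obtain ⟨hu0g, v₀, hv0g, huv0⟩ := hS u₀ hu₀
  obtain ⟨a₀, ha₀, -, -⟩ := key u₀ hu0g
  obtain ⟨d₀, hd₀, -, -⟩ := key v₀ hv0g
  let c' : K := (q : K) ^ 2 * (a₀ * d₀)
  have hc'c : ((a₀ * d₀ : K) : ℂ) = c := by push_cast; rw [ha₀, hd₀, huv0]
  have hqK : (q : K) ≠ 0 := by exact_mod_cast hq0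
  have hc' : c' ≠ 0 := by
    apply mul_ne_zero (pow_ne_zero _ hqK)
    intro h
    rw [h] at hc'c
    exact hc (by rw [← hc'c]; rfl)
  choose! f hf using key
  let S' : Finset K := S.image fun u => (q : K) * f u
  have hcard : S'.card = S.card := by
    apply Finset.card_image_of_injOn
    intro u hu v hv huv
    have h1 : f u = f v := mul_left_cancel₀ hqK huv
    rw [← (hf u (hS u hu).1).1, ← (hf v (hS v hv).1).1, h1]
  have := hdiv K hfin H hH1 c' hc' S' ?_
  · rw [hcard] at this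
    refine this.trans (le_of_eq ?_)
    rw [hH, Real.mul_rpow (by positivity) (by positivity), ← Real.rpow_natCast N e, ← Real.rpow_mul hN0,
      mul_div_cancel₀ _ hepos.ne', mul_assoc]
  · intro a ha
    obtain ⟨u, hu, rfl⟩ := Finset.mem_image.mp ha
    obtain ⟨hug, v, hvg, huv⟩ := hS u hu
    refine ⟨(hf u hug).2.1, (hf u hug).2.2, (q : K) * f v, ?_, (hf v hvg).2.1, (hf v hvg).2.2⟩
    have h1 : f u * f v = a₀ * d₀ := by
      apply Subtype.coe_injective
      have h2 : ((f u * f v : K) : ℂ) = u * v := by push_cast; rw [(hf u hug).1, (hf v hvg).1]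
      exact h2.trans (huv.trans hc'c.symm)
    calc (q : K) * f u * ((q : K) * f v) = (q : K) ^ 2 * (f u * f v) := by ring
      _ = c' := by rw [h1]

end Pool.Agent.W_MP_96b415_co
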